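import Pool.Agent.H578R2.ARM.PolyS

/-!
# Acceptance of alternating register machines is EXPTIME-hard
-/

namespace Pool.Agent.NPC.ARM578

open Pool.Agent.H820R2.SS Pool.Agent.NPC.CL Pool.Agent.H578R2.ARM

/-- all registers are in range -/
def RG (W : ℕ) (l : List (ℕ × Bool)) : Prop := ∀ g ∈ l, g.1 < 2 * W

theorem rg_append {W : ℕ} {l l' : List (ℕ × Bool)} (h : RG W l) (h' : RG W l') :
    RG W (l ++ l') := by
  intro g hg
  rw [List.mem_append] at hg
  rcases hg with hg | hg
  · exact h g hg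
  · exact h' g hg

theorem rg_nil {W : ℕ} : RG W [] := by
  intro g hg
  simp at hg

theorem rg_gd0 {W i : ℕ} {b : Bool} (hi : i < W) : RG W (gd W 0 i b) := by
  intro g hg
  simp only [gd, List.mem_cons, List.mem_map, List.mem_filter, List.mem_range,
    decide_eq_true_eq] at hg
  rcases hg with rfl | ⟨l, ⟨hl, _⟩, rfl⟩
  · simp only; omega
  · simp only; omega

theorem rg_gdW {W i : ℕ} {b : Bool} (hi : i < W) : RG W (gd W W i b) := by
  intro g hg
  simp only [gd, List.mem_cons, List.mem_map, List.mem_filter, List.mem_range,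
    decide_eq_true_eq] at hg
  rcases hg with rfl | ⟨l, ⟨hl, _⟩, rfl⟩
  · simp only; omega
  · simp only; omega

theorem rg_geq0 {W v : ℕ} : RG W (geq W 0 v) := by
  intro g hg
  simp only [geq, List.mem_map, List.mem_range] at hg
  obtain ⟨l, hl, rfl⟩ := hg
  simp only; omega

theorem rg_geqW {W v : ℕ} : RG W (geq W W v) := by
  intro g hg
  simp only [geq, List.mem_map, List.mem_range] at hg
  obtain ⟨l, hl, rfl⟩ := hg
  simp only; omega

/-- a rule is fine -/
def OKR {C : Type} (W : ℕ) (R : TRule C) : Prop := RG W R.2.1 ∧ ∀ s ∈ R.2.2, RG W s.2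

theorem ps_nil {C : Type} {W : ℕ} : ∀ s ∈ ([] : List (C × List (ℕ × Bool))), RG W s.2 := by
  intro s hs
  simp at hs

theorem ps_cons {C : Type} {W : ℕ} {a : C × List (ℕ × Bool)} {l : List (C × List (ℕ × Bool))}
    (ha : RG W a.2) (hl : ∀ s ∈ l, RG W s.2) : ∀ s ∈ a :: l, RG W s.2 := by
  intro s hs
  rw [List.mem_cons] at hs
  rcases hs with rfl | hs
  · exact ha
  · exact hl s hs

theorem ps_append {C : Type} {W : ℕ} {l' l : List (C × List (ℕ × Bool))}
    (hl' : ∀ s ∈ l', RG W s.2) (hl : ∀ s ∈ l, RG W s.2) : ∀ s ∈ l' ++ l, RG W s.2 := by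
  intro s hs
  rw [List.mem_append] at hs
  rcases hs with hs | hs
  · exact hl' s hs
  · exact hl s hs

variable {Q K A : Type} [DecidableEq K] {D : Tab Q K A} {W : ℕ}

omit [DecidableEq K] in
theorem ps_pre {q : Q} {r : Option A} {i : ℕ} (hi : i < W) : ∀ s ∈ pre D W q r i, RG W s.2 :=
  ps_cons (rg_gd0 hi) (ps_cons (rg_gd0 hi) ps_nil)

theorem step_ok {q : Q} {r : Option A} {i : ℕ} (hi : i < W) {R : TRule (Ctl Q K A)}
    (hR : R ∈ stepRules D W q r i) : OKR W R := by
  unfold stepRules at hR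
  rw [List.mem_append, List.mem_append, List.mem_append] at hR
  rcases hR with ((hR | hR) | hR) | hR
  · rw [List.mem_singleton] at hR
    subst hR
    exact ⟨rg_gd0 hi, ps_pre hi⟩
  · unfold keepRules at hR
    rw [List.mem_flatMap] at hR
    obtain ⟨k, _, hR⟩ := hR
    rw [List.mem_flatMap] at hR
    obtain ⟨o, _, hR⟩ := hR
    split_ifs at hR with hcond
    · rw [List.mem_singleton] at hR
      subst hR
      exact ⟨rg_gd0 hi, ps_append (ps_pre hi) (ps_cons (rg_gd0 hi) ps_nil)⟩
    · simp at hR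
  · cases hpu : pushed D q r with
    | none => rw [hpu] at hR; simp at hR
    | some a =>
      rw [hpu] at hR
      simp only [pushRules, List.mem_append, List.mem_map, List.mem_flatMap, List.mem_singleton,
        List.mem_filter, List.mem_range] at hR
      rcases hR with ((⟨o, ⟨_, ho⟩, rfl⟩ | rfl) | ⟨o, ⟨_, ho⟩, j, hj, rfl⟩) | ⟨j, hj, rfl⟩
      · exact ⟨rg_gd0 hi, ps_append (ps_pre hi) (ps_cons (rg_gd0 hi) ps_nil)⟩
      · exact ⟨rg_append (rg_gd0 hi) rg_geqW, ps_append (ps_pre hi) (ps_cons (rg_gd0 hi) ps_nil)⟩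
      · exact ⟨rg_append (rg_gd0 hi) (rg_gdW hj), ps_append (ps_pre hi) (ps_cons (rg_gd0 hi)
          (ps_cons (rg_append (rg_gd0 hi) (rg_gdW hj)) ps_nil))⟩
      · exact ⟨rg_append (rg_gd0 hi) (rg_gdW hj), ps_append (ps_pre hi)
          (ps_cons (rg_append (rg_gd0 hi) (rg_gdW hj)) ps_nil)⟩
  · split_ifs at hR with hk
    · simp only [popRules, List.mem_append, List.mem_map, List.mem_flatMap, List.mem_singleton,
        List.mem_filter, List.mem_range] at hR
      rcases hR with (rfl | ⟨j, hj, rfl⟩) | ⟨o, ⟨_, ho⟩, o', ⟨_, ho'⟩, j, hj, rfl⟩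
      · exact ⟨rg_gd0 hi, ps_append (ps_pre hi) (ps_cons (rg_gd0 hi) ps_nil)⟩
      · exact ⟨rg_append (rg_gd0 hi) (rg_gdW hj), ps_append (ps_pre hi)
          (ps_cons (rg_append (rg_gd0 hi) (rg_gdW hj)) ps_nil)⟩
      · exact ⟨rg_append (rg_gd0 hi) (rg_gdW hj), ps_append (ps_pre hi) (ps_cons (rg_gd0 hi)
          (ps_cons (rg_append (rg_gd0 hi) (rg_gdW hj)) ps_nil))⟩
    · simp at hR

omit [DecidableEq K] in
theorem rd_ok {R : TRule (Ctl Q K A)} (hR : R ∈ rdRules D W) : OKR W R := by
  unfold rdRules at hR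
  simp only [List.mem_append, List.mem_map, List.mem_flatMap, List.mem_singleton,
        List.mem_filter, List.mem_range] at hR
  obtain ⟨k, _, ((rfl | ⟨r, _, b, _, l, hl, rfl⟩) | ⟨r, ⟨_, hr⟩, j, hj, rfl⟩)⟩ := hR
  · exact ⟨rg_nil, ps_cons rg_geqW ps_nil⟩
  · refine ⟨rg_nil, ps_cons ?_ ps_nil⟩
    intro g hg
    rw [List.mem_singleton] at hg
    subst hg
    simp only
    omega
  · exact ⟨rg_gdW hj, ps_cons rg_nil (ps_cons (rg_gdW hj) ps_nil)⟩

theorem init_ok {y : List Bool} {R : TRule (Ctl Q K A)} (hR : R ∈ initRules D W y) :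
    OKR W R := by
  unfold initRules at hR
  simp only [List.mem_append, List.mem_map, List.mem_singleton,
        List.mem_filter, List.mem_range, decide_eq_true_eq] at hR
  rcases hR with (((rfl | ⟨k, ⟨_, hk⟩, rfl⟩) | ⟨⟨a, j⟩, hj, rfl⟩) | rfl) | ⟨j, hj, rfl⟩
  · exact ⟨rg_geq0, ps_nil⟩
  · exact ⟨rg_geq0, ps_nil⟩
  · exact ⟨rg_append rg_geq0 rg_geqW, ps_nil⟩
  · exact ⟨rg_append rg_geq0 rg_geqW, ps_nil⟩
  · exact ⟨rg_append rg_geq0 (rg_gdW hj), ps_cons (rg_gdW hj) ps_nil⟩

omit [DecidableEq K] in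
theorem fin_ok {N : ℕ} {b : Bool} {R : TRule (Ctl Q K A)} (hR : R ∈ finRules D W N b) :
    OKR W R := by
  unfold finRules at hR
  cases b with
  | true =>
    simp only [if_true, List.mem_map, List.mem_flatMap] at hR
    obtain ⟨q, _, o, _, rfl⟩ := hR
    exact ⟨rg_nil, ps_cons rg_geq0 (ps_cons (rg_append rg_geq0 rg_geqW)
      (ps_cons (rg_append rg_geq0 rg_geqW) ps_nil))⟩
  | false =>
    rw [if_neg (by simp)] at hR
    simp only [List.mem_append, List.mem_map] at hR
    rcases hR with (⟨q, _, rfl⟩ | ⟨o, _, rfl⟩) | ⟨o, _, rfl⟩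
    · exact ⟨rg_nil, ps_cons rg_geq0 ps_nil⟩
    · exact ⟨rg_nil, ps_cons (rg_append rg_geq0 rg_geqW) ps_nil⟩
    · exact ⟨rg_nil, ps_cons (rg_append rg_geq0 rg_geqW) ps_nil⟩

theorem rules_ok {y : List Bool} {N : ℕ} {b : Bool} : ∀ R ∈ rules D W y N b, OKR W R := by
  intro R hR
  unfold rules at hR
  rw [List.mem_append, List.mem_append, List.mem_append] at hR
  rcases hR with ((hR | hR) | hR) | hR
  · simp only [List.mem_flatMap, List.mem_range] at hR
    obtain ⟨i, hi, q, _, r, _, hR⟩ := hR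
    exact step_ok hi hR
  · exact rd_ok hR
  · exact init_ok hR
  · exact fin_ok hR

/-! ### The reduction -/

theorem full_run (tm : Turing.FinTM2) (inE : tm.Γ tm.k₀ ≃ Bool) (outE : tm.Γ tm.k₁ ≃ Bool)
    (x : List Bool) (t : ℕ) : Full (run (tab tm inE outE) 0 x [] t) := by
  intro k j hj
  have hrel := (init_rel tm inE outE 0 x [] (by simp)).iterate t
  obtain ⟨l, h1, _⟩ := hrel.stk k
  have hb : (if k = tm.k₀ then 0 - ([] : List Bool).length else 0) = 0 := by
    split_ifs <;> rfl
  rw [hb, List.replicate_zero, List.append_nil] at h1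
  have h2 : (run (tab tm inE outE) 0 x [] t).m k j ∈
      cellsOf ((run (tab tm inE outE) 0 x [] t).h k) ((run (tab tm inE outE) 0 x [] t).m k) := by
    unfold cellsOf
    rw [List.mem_reverse, List.mem_map]
    exact ⟨j, List.mem_range.2 hj, rfl⟩
  have h3 : cellsOf ((run (tab tm inE outE) 0 x [] t).h k)
      ((run (tab tm inE outE) 0 x [] t).m k) = l.map some := h1
  rw [h3, List.mem_map] at h2
  obtain ⟨a, _, ha⟩ := h2
  rw [← ha]
  simp

/-- The class EXPTIME. -/
def InEXPTIME (L : Set (List Bool)) : Prop :=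
  ∃ V : List Bool → List Bool,
    ∃ h : Turing.TM2ComputableInTime (id : List Bool → List Bool) (id : List Bool → List Bool) V,
    ∃ p : Polynomial ℕ, (∀ n, h.time n ≤ 2 ^ p.eval n) ∧ ∀ x, x ∈ L ↔ V x = [true]

theorem exptime_arm_aux {L : Set (List Bool)} (hL : InEXPTIME L) (b : Bool) :
    ∃ f : List Bool → ARM, PC (fun x : List Bool => x) bits f ∧ (∀ x, ARMPr (f x)) ∧
      ∀ x, ((x ∈ L ↔ b = true) ↔ ARMAcc (f x)) := by
  obtain ⟨V, h, p, hp, hL⟩ := hL
  set B := maxDepth h.tm with hB
  let R : Polynomial ℕ := p + Polynomial.C B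
  let D := tab h.tm h.inputAlphabet h.outputAlphabet
  letI := encFintype (NQ h.tm)
  letI := encFintype h.tm.K
  letI := encFintype (NA h.tm)
  let N : List Bool → ℕ := fun x => 2 ^ R.eval x.length
  let W : List Bool → ℕ := fun x => R.eval x.length + x.length + 2
  let code : Ctl (NQ h.tm) h.tm.K (NA h.tm) → ℕ := fun c => (Fintype.equivFin _ c : ℕ)
  have hcode : Function.Injective code := by
    intro a a' haa
    exact (Fintype.equivFin _).injective (Fin.ext haa)
  refine ⟨fun x => (List.replicate (2 * W x) (), code cgo,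
    (rules D (W x) x (N x) b).map (encR code)), ?_, ?_, ?_⟩
  · -- polynomial time
    have hR : UPoly (fun x : List Bool => R.eval x.length) := UPoly.eval (UPoly.length Poly.id) R
    have hW : UPoly W := UPoly.add (UPoly.add hR (UPoly.length Poly.id)) (UPoly.const 2)
    have hN : Poly N := Med.poly_two_pow hR
    have hc : Poly code := polyOfFintype code
    have h1 : Poly (fun x : List Bool => (List.replicate (2 * W x) (), code cgo,
        (rules D (W x) x (N x) b).map (encR code))) :=
      Poly.pair (UPoly.mul (UPoly.const 2) hW) (Poly.pair (Poly.const _)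
        (poly_encR (poly_rules D hW Poly.id hN b) hc))
    exact PC.comp (ea := fun x : List Bool => x) (eb := (bits : List Bool → List Bool))
      (ec := bits) (g := fun x : List Bool => (List.replicate (2 * W x) (), code cgo,
        (rules D (W x) x (N x) b).map (encR code))) (f := fun x => x) h1 PC.ofBits
  · intro x r hr
    simp only at hr
    obtain ⟨R', hR', rfl⟩ := List.mem_map.1 hr
    obtain ⟨h1, h2⟩ := rules_ok R' hR'
    simp only [List.length_replicate]
    refine ⟨h1, ?_⟩
    intro s hs u hu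
    obtain ⟨s', hs', rfl⟩ := List.mem_map.1 hs
    exact h2 s' hs' u hu
  · intro x
    have hWpos : 0 < W x := by simp only [W]; omega
    have hNW : x.length + N x < 2 ^ W x := by
      simp only [N, W]
      rw [pow_add, pow_add]
      have h1 : x.length < 2 ^ x.length := Nat.lt_two_pow_self
      have h2 : 0 < 2 ^ R.eval x.length := by positivity
      nlinarith
    have hVx : V (x ++ []) = [true] ↔ Accepts D (run D 0 x [] (N x)) := by
      refine tab_correct h.tm h.inputAlphabet h.outputAlphabet V (h.time x.length) (N x) 0 x []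
        (by simp) ?_ ?_
      · rw [List.append_nil]
        exact h.outputsFun x
      · simp only [N, R, Polynomial.eval_add, Polynomial.eval_C]
        rw [pow_add]
        refine Nat.mul_le_mul (hp _) ?_
        exact (Nat.lt_two_pow_self (n := B)).le
    rw [List.append_nil] at hVx
    have hbound : ∀ t ≤ N x, ∀ k, (run D 0 x [] t).h k < 2 ^ W x := by
      intro t ht k
      have h1 := iterate_ptr_le D.M (init D 0 x []) k t
      have h2 : (init D 0 x []).h k ≤ x.length := by
        simp only [init]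
        split_ifs <;> omega
      have h3 : (run D 0 x [] t).h k ≤ (init D 0 x []).h k + t := h1
      omega
    have key : TDer (rules D (W x) x (N x) b) cgo (fun _ => false) ↔
        (Accepts D (run D 0 x [] (N x)) ↔ b = true) := by
      constructor
      · intro hd
        exact mean_go.1 (sound (c := run D 0 x []) (fin := (Accepts D (run D 0 x [] (N x)) ↔
          b = true)) (fun t => run_succ D 0 x [] t) (full_run _ _ _ x) rfl (by omega) (by omega)
          hWpos Iff.rfl hd)
      · intro hd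
        exact complete (c := run D 0 x []) (fun q => by simp [D, tab]) (fun k => by simp [D, tab])
          (fun o => by simp [D, tab]) (fun t => run_succ D 0 x [] t) (full_run _ _ _ x) rfl
          (by omega) hbound (by omega) hWpos hd _
    unfold ARMAcc
    simp only
    rw [der_iff hcode, key, hL x, hVx]

theorem exptime_arm {L : Set (List Bool)} (hL : InEXPTIME L) :
    ∃ f : List Bool → ARM, PC (fun x : List Bool => x) bits f ∧ (∀ x, ARMPr (f x)) ∧
      ∀ x, x ∈ L ↔ ARMAcc (f x) := by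
  obtain ⟨f, h1, h2, h3⟩ := exptime_arm_aux hL true
  exact ⟨f, h1, h2, fun x => by rw [← h3 x]; simp⟩

theorem exptime_arm_compl {L : Set (List Bool)} (hL : InEXPTIME L) :
    ∃ f : List Bool → ARM, PC (fun x : List Bool => x) bits f ∧ (∀ x, ARMPr (f x)) ∧
      ∀ x, x ∉ L ↔ ARMAcc (f x) := by
  obtain ⟨f, h1, h2, h3⟩ := exptime_arm_aux hL false
  exact ⟨f, h1, h2, fun x => by rw [← h3 x]; simp⟩

end Pool.Agent.NPC.ARM578
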