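import Pool.Agent.H578R2.ARM.Corr

/-!
# Completeness of the rules
-/

namespace Pool.Agent.H578R2.ARM

open Pool.Agent.H820R2.SS Pool.Agent.NPC.CL

variable {Q K A : Type} [DecidableEq K] {D : Tab Q K A} {W : ℕ}
variable {c : ℕ → Cf Q K A} {fin : Prop} {y : List Bool} {N : ℕ} {b : Bool}

theorem sound (hstep : ∀ t, c (t + 1) = D.M.step (c t)) (hfull : ∀ t, Full (c t))
    (hc0 : c 0 = init D 0 y []) (hy : y.length < 2 ^ W) (hN : N < 2 ^ W) (hW : 0 < W)
    (hfin : fin ↔ (Accepts D (c N) ↔ b = true)) {x : Ctl Q K A} {ρ : ℕ → Bool}
    (h : TDer (rules D W y N b) x ρ) : Mean W c fin x ρ := by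
  induction h with
  | mk R ρ hR hg hp ih =>
    unfold rules at hR
    rw [List.mem_append, List.mem_append, List.mem_append] at hR
    rcases hR with ((hR | hR) | hR) | hR
    · simp only [List.mem_flatMap, List.mem_range] at hR
      obtain ⟨i, hi, q, _, r, _, hR⟩ := hR
      exact step_sound hstep hfull hi hR hg ih
    · exact rd_sound hfull hR hg ih
    · exact init_sound hy hc0 hfull hR hg ih
    · exact fin_sound hN hW hfull hfin hR ih

section

variable (hqs : ∀ q, q ∈ D.qs) (hks : ∀ k, k ∈ D.ks) (hos : ∀ o, o ∈ D.os)

theorem mem_rules_step {q : Q} {r : Option A} {i : ℕ} (hqs : ∀ q, q ∈ D.qs)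
    (hos : ∀ o, o ∈ D.os) (hi : i < W) {R : TRule (Ctl Q K A)} (hR : R ∈ stepRules D W q r i) :
    R ∈ rules D W y N b := by
  unfold rules
  rw [List.mem_append, List.mem_append, List.mem_append]
  refine Or.inl (Or.inl (Or.inl ?_))
  simp only [List.mem_flatMap, List.mem_range]
  exact ⟨i, hi, q, hqs q, r, hos r, hR⟩

theorem mem_rules_rd {R : TRule (Ctl Q K A)} (hR : R ∈ rdRules D W) : R ∈ rules D W y N b := by
  unfold rules
  rw [List.mem_append, List.mem_append, List.mem_append]
  exact Or.inl (Or.inl (Or.inr hR))

theorem mem_rules_init {R : TRule (Ctl Q K A)} (hR : R ∈ initRules D W y) :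
    R ∈ rules D W y N b := by
  unfold rules
  rw [List.mem_append, List.mem_append, List.mem_append]
  exact Or.inl (Or.inr hR)

theorem mem_rules_fin {R : TRule (Ctl Q K A)} (hR : R ∈ finRules D W N b) :
    R ∈ rules D W y N b := by
  unfold rules
  rw [List.mem_append, List.mem_append, List.mem_append]
  exact Or.inr hR

include hks hos in
theorem guess {k : K} {r : Option A} (u : List (ℕ × Bool)) (hu : ∀ p ∈ u, ∃ l < W, p.1 = W + l) :
    ∀ ρ, TDer (rules D W y N b) (crd k r) (upd ρ u) → TDer (rules D W y N b) (crd k r) ρ := by
  induction u with
  | nil => intro ρ h; exact h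
  | cons p u ih =>
    intro ρ h
    obtain ⟨l, hl, hp⟩ := hu p (List.mem_cons_self)
    apply ih (fun p hp => hu p (List.mem_cons_of_mem _ hp))
    refine TDer.of (g := []) (p := [(crd k r, [p])]) (mem_rules_rd ?_) (by simp) ?_
    · unfold rdRules
      simp only [List.mem_append, List.mem_map, List.mem_flatMap, List.mem_singleton,
        List.mem_filter, List.mem_range]
      refine ⟨k, hks k, Or.inl (Or.inr ⟨r, hos r, p.2, by cases p.2 <;> simp, l, hl, ?_⟩)⟩
      rw [← hp]
    · intro s hs
      rw [List.mem_singleton] at hs
      subst hs
      simp only
      rw [← upd_append]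
      exact h

include hks hos in
theorem rd_of_ce {t : ℕ} (hfull : Full (c t))
    (hce : ∀ ρ, tv W ρ = t → ∀ k, TDer (rules D W y N b) (cce k (vis (c t) k (jv W ρ))) ρ)
    (hb : ∀ k, (c t).h k < 2 ^ W) (ρ : ℕ → Bool) (hρ : tv W ρ = t) (k : K) :
    TDer (rules D W y N b) (crd k ((c t).read k)) ρ := by
  cases hh : (c t).h k with
  | zero =>
    rw [(read_none hfull).2 hh]
    refine TDer.of (g := []) (p := [(cce k none, geq W W 0)]) (mem_rules_rd ?_) (by simp) ?_
    · unfold rdRules
      simp only [List.mem_append, List.mem_map, List.mem_flatMap, List.mem_singleton,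
        List.mem_filter, List.mem_range]
      exact ⟨k, hks k, Or.inl (Or.inl rfl)⟩
    · intro s hs
      rw [List.mem_singleton] at hs
      subst hs
      have h1 := hce (upd ρ (geq W W 0)) (by rw [tv_geqJ, hρ]) k
      rw [jv_geqJ (by positivity), (vis_eq_none hfull).2 hh.le] at h1
      exact h1
  | succ n =>
    have hn : n < 2 ^ W := by have := hb k; omega
    apply guess hks hos (geq W W n) (by
      intro p hp
      unfold geq at hp
      obtain ⟨l, hl, rfl⟩ := List.mem_map.1 hp
      exact ⟨l, List.mem_range.1 hl, rfl⟩)
    set ρ' := upd ρ (geq W W n) with hρ'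
    have htv : tv W ρ' = t := by rw [hρ', tv_geqJ, hρ]
    have hjv : jv W ρ' = n := by rw [hρ', jv_geqJ hn]
    obtain ⟨j, hj, hg⟩ := exists_inc (W := W) (off := W) (ρ := ρ') (by
      have := hb k
      change jv W ρ' + 1 < 2 ^ W
      omega)
    have hjv' : jv W (upd ρ' (gd W W j false)) = n + 1 := by
      rw [← hjv]; exact inc_block hj hg
    rw [read_succ hh]
    have hsome : (vis (c t) k n).isSome = true := by
      rw [Option.isSome_iff_ne_none, vis_ne_none hfull]
      omega
    refine TDer.of (g := gd W W j true) (p := [(cce k (vis (c t) k n), []),
      (cce k none, gd W W j false)]) (mem_rules_rd ?_) hg ?_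
    · unfold rdRules
      simp only [List.mem_append, List.mem_map, List.mem_flatMap, List.mem_singleton,
        List.mem_filter, List.mem_range]
      exact ⟨k, hks k, Or.inr ⟨_, ⟨hos _, hsome⟩, j, hj, rfl⟩⟩
    · intro s hs
      simp only [List.mem_cons, List.not_mem_nil, or_false] at hs
      rcases hs with rfl | rfl
      · simp only [upd_nil]
        have h1 := hce ρ' htv k
        rw [hjv] at h1
        exact h1
      · have h1 := hce (upd ρ' (gd W W j false)) (by rw [tv_gdJ hj, htv]) k
        rw [hjv', (vis_eq_none hfull).2 hh.le] at h1
        exact h1

include hqs hks hos in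
theorem complete_aux (hstep : ∀ t, c (t + 1) = D.M.step (c t)) (hfull : ∀ t, Full (c t))
    (hc0 : c 0 = init D 0 y []) (hy : y.length < 2 ^ W)
    (hb : ∀ t ≤ N, ∀ k, (c t).h k < 2 ^ W) :
    ∀ t ≤ N, (∀ ρ, tv W ρ = t → TDer (rules D W y N b) (cst (c t).q) ρ) ∧
      ∀ ρ, tv W ρ = t → ∀ k, TDer (rules D W y N b) (cce k (vis (c t) k (jv W ρ))) ρ := by
  intro t
  induction t with
  | zero =>
    intro _
    constructor
    · intro ρ hρ
      rw [hc0]
      refine TDer.of (g := geq W 0 0) (p := []) (mem_rules_init ?_)
        ((geq_iff (by positivity)).2 hρ) (by simp)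
      unfold initRules
      simp [init]
    · -- the cells at time 0
      have key : ∀ n (ρ : ℕ → Bool), tv W ρ = 0 → jv W ρ = y.length + n →
          TDer (rules D W y N b) (cce D.k₀ none) ρ := by
        intro n
        induction n with
        | zero =>
          intro ρ hρ hj
          refine TDer.of (g := geq W 0 0 ++ geq W W y.length) (p := []) (mem_rules_init ?_)
            (fun g hg => ?_) (by simp)
          · unfold initRules
            simp
          · rw [List.mem_append] at hg
            rcases hg with hg | hg
            · exact (geq_iff (by positivity)).2 hρ g hg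
            · exact (geq_iff hy).2 hj g hg
        | succ n ih =>
          intro ρ hρ hj
          obtain ⟨j, hjW, hg⟩ := exists_dec (W := W) (off := W) (ρ := ρ) (by
            change 0 < jv W ρ
            omega)
          have h1 : jv W ρ = jv W (upd ρ (gd W W j true)) + 1 := dec_block hjW hg
          refine TDer.of (g := geq W 0 0 ++ gd W W j false) (p := [(cce D.k₀ none,
            gd W W j true)]) (mem_rules_init ?_) (fun g hg' => ?_) ?_
          · unfold initRules
            simp only [List.mem_append, List.mem_map, List.mem_range]
            exact Or.inr ⟨j, hjW, rfl⟩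
          · rw [List.mem_append] at hg'
            rcases hg' with hg' | hg'
            · exact (geq_iff (by positivity)).2 hρ g hg'
            · exact hg g hg'
          · intro s hs
            rw [List.mem_singleton] at hs
            subst hs
            exact ih _ (by rw [tv_gdJ hjW, hρ]) (by simp only; omega)
      intro ρ hρ k
      rw [hc0, vis_init]
      by_cases hk : k = D.k₀
      · rw [if_pos hk]
        subst hk
        by_cases hj : jv W ρ < y.length
        · have hlt : jv W ρ < y.reverse.length := by simpa using hj
          rw [List.getElem?_eq_getElem hlt]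
          refine TDer.of (g := geq W 0 0 ++ geq W W (jv W ρ)) (p := []) (mem_rules_init ?_)
            (fun g hg => ?_) (by simp)
          · unfold initRules
            simp only [List.mem_append, List.mem_map]
            refine Or.inl (Or.inl (Or.inr ⟨(y.reverse[jv W ρ], jv W ρ), ?_, rfl⟩))
            exact List.mem_zipIdx_iff_getElem?.2 (by rw [List.getElem?_eq_getElem hlt])
          · rw [List.mem_append] at hg
            rcases hg with hg | hg
            · exact (geq_iff (by positivity)).2 hρ g hg
            · exact (geq_iff (jv_lt _ _)).2 rfl g hg
        · rw [List.getElem?_eq_none (by simpa using hj)]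
          exact key (jv W ρ - y.length) ρ hρ (by omega)
      · rw [if_neg hk]
        refine TDer.of (g := geq W 0 0) (p := []) (mem_rules_init ?_)
          ((geq_iff (by positivity)).2 hρ) (by simp)
        unfold initRules
        simp only [List.mem_append, List.mem_map, List.mem_filter, decide_eq_true_eq]
        exact Or.inl (Or.inl (Or.inl (Or.inr ⟨k, ⟨hks k, hk⟩, rfl⟩)))
  | succ t ih =>
    intro ht
    obtain ⟨ih1, ih2⟩ := ih (by omega)
    have ih3 := rd_of_ce hks hos (hfull t) ih2 (hb t (by omega))
    -- going back in time
    have back : ∀ ρ, tv W ρ = t + 1 → ∃ i < W, (∀ g ∈ gd W 0 i false, ρ g.1 = g.2) ∧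
        tv W (upd ρ (gd W 0 i true)) = t := by
      intro ρ hρ
      obtain ⟨i, hi, hg⟩ := exists_dec (W := W) (off := 0) (ρ := ρ) (by
        change 0 < tv W ρ
        omega)
      have h1 : tv W ρ = tv W (upd ρ (gd W 0 i true)) + 1 := dec_block hi hg
      exact ⟨i, hi, hg, by omega⟩
    have hpre : ∀ ρ i, tv W (upd ρ (gd W 0 i true)) = t →
        ∀ s ∈ pre D W (c t).q ((c t).read (D.M.κ (c t).q)) i,
          TDer (rules D W y N b) s.1 (upd ρ s.2) := by
      intro ρ i h s hs
      unfold pre at hs
      simp only [List.mem_cons, List.not_mem_nil, or_false] at hs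
      rcases hs with rfl | rfl
      · exact ih1 _ h
      · exact ih3 _ h _
    rw [hstep]
    constructor
    · intro ρ hρ
      obtain ⟨i, hi, hg, htv⟩ := back ρ hρ
      refine TDer.of (g := gd W 0 i false) (p := pre D W (c t).q ((c t).read (D.M.κ (c t).q)) i)
        (mem_rules_step (q := (c t).q) (r := (c t).read (D.M.κ (c t).q)) hqs hos hi ?_) hg
        (hpre ρ i htv)
      unfold stepRules
      simp [NM.step]
    · intro ρ hρ k
      obtain ⟨i, hi, hg, htv⟩ := back ρ hρ
      by_cases hcond : k ≠ D.M.κ (c t).q ∨ pkind D (c t).q ((c t).read (D.M.κ (c t).q)) = 0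
      · rw [vis_keep hcond]
        refine TDer.of (g := gd W 0 i false) (p := pre D W (c t).q
          ((c t).read (D.M.κ (c t).q)) i ++ [(cce k (vis (c t) k (jv W ρ)), gd W 0 i true)])
          (mem_rules_step (q := (c t).q) (r := (c t).read (D.M.κ (c t).q)) hqs hos hi ?_) hg ?_
        · unfold stepRules
          simp only [List.mem_append]
          refine Or.inl (Or.inl (Or.inr ?_))
          unfold keepRules
          rw [List.mem_flatMap]
          refine ⟨k, hks k, ?_⟩
          rw [List.mem_flatMap]
          refine ⟨vis (c t) k (jv W ρ), hos _, ?_⟩
          rw [if_pos hcond]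
          exact List.mem_singleton_self _
        · intro s hs
          rw [List.mem_append, List.mem_singleton] at hs
          rcases hs with hs | rfl
          · exact hpre ρ i htv s hs
          · have := ih2 (upd ρ (gd W 0 i true)) htv k
            rw [jv_gdT hi] at this
            exact this
      · have hk : k = D.M.κ (c t).q := by
          by_contra hk
          exact hcond (Or.inl hk)
        subst hk
        have hpk : ¬ pkind D (c t).q ((c t).read (D.M.κ (c t).q)) = 0 := fun h =>
          hcond (Or.inr h)
        rcases kind_cases (D := D) (c t).q ((c t).read (D.M.κ (c t).q)) with h0 | h1 | ⟨a, ha⟩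
        · exact absurd h0 hpk
        · -- pop
          rw [vis_pop h1]
          have hmem : ∀ R ∈ popRules D W (c t).q ((c t).read (D.M.κ (c t).q)) i,
              R ∈ rules D W y N b := by
            intro R hR
            refine mem_rules_step (q := (c t).q) (r := (c t).read (D.M.κ (c t).q)) hqs hos hi ?_
            unfold stepRules
            rw [List.mem_append, if_pos h1]
            exact Or.inr hR
          by_cases hj : jv W ρ + 1 < (c t).h (D.M.κ (c t).q)
          · rw [if_pos hj]
            have hb' := hb t (by omega) (D.M.κ (c t).q)
            obtain ⟨j, hjW, hgj⟩ := exists_inc (W := W) (off := W) (ρ := ρ) (by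
              change jv W ρ + 1 < 2 ^ W
              omega)
            have hjv' : jv W (upd ρ (gd W W j false)) = jv W ρ + 1 := inc_block hjW hgj
            have hs1 : (vis (c t) (D.M.κ (c t).q) (jv W ρ)).isSome = true := by
              rw [Option.isSome_iff_ne_none, vis_ne_none (hfull t)]; omega
            have hs2 : (vis (c t) (D.M.κ (c t).q) (jv W ρ + 1)).isSome = true := by
              rw [Option.isSome_iff_ne_none, vis_ne_none (hfull t)]; omega
            refine TDer.of (g := gd W 0 i false ++ gd W W j true)
              (p := pre D W (c t).q ((c t).read (D.M.κ (c t).q)) i ++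
                [(cce (D.M.κ (c t).q) (vis (c t) (D.M.κ (c t).q) (jv W ρ)), gd W 0 i true),
                  (cce (D.M.κ (c t).q) (vis (c t) (D.M.κ (c t).q) (jv W ρ + 1)),
                    gd W 0 i true ++ gd W W j false)]) (hmem _ ?_) ?_ ?_
            · unfold popRules
              simp only [List.mem_append, List.mem_map, List.mem_flatMap, List.mem_filter,
                List.mem_range]
              exact Or.inr ⟨_, ⟨hos _, hs1⟩, _, ⟨hos _, hs2⟩, j, hjW, rfl⟩
            · intro g hg'
              rw [List.mem_append] at hg'
              rcases hg' with hg' | hg'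
              · exact hg g hg'
              · exact hgj g hg'
            · intro s hs
              simp only [List.mem_append, List.mem_cons, List.not_mem_nil, or_false] at hs
              rcases hs with hs | rfl | rfl
              · exact hpre ρ i htv s hs
              · have := ih2 (upd ρ (gd W 0 i true)) htv (D.M.κ (c t).q)
                rw [jv_gdT hi] at this
                exact this
              · have := ih2 (upd ρ (gd W 0 i true ++ gd W W j false))
                  (by rw [tvTJ hi hjW, htv]) (D.M.κ (c t).q)
                rw [jvTJ hi, hjv'] at this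
                exact this
          · rw [if_neg hj]
            by_cases hj2 : (c t).h (D.M.κ (c t).q) ≤ jv W ρ
            · refine TDer.of (g := gd W 0 i false)
                (p := pre D W (c t).q ((c t).read (D.M.κ (c t).q)) i ++
                  [(cce (D.M.κ (c t).q) none, gd W 0 i true)]) (hmem _ ?_) hg ?_
              · unfold popRules
                simp only [List.mem_append, List.mem_singleton]
                exact Or.inl (Or.inl trivial)
              · intro s hs
                simp only [List.mem_append, List.mem_singleton] at hs
                rcases hs with hs | rfl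
                · exact hpre ρ i htv s hs
                · have := ih2 (upd ρ (gd W 0 i true)) htv (D.M.κ (c t).q)
                  rw [jv_gdT hi, (vis_eq_none (hfull t)).2 hj2] at this
                  exact this
            · have hb' := hb t (by omega) (D.M.κ (c t).q)
              obtain ⟨j, hjW, hgj⟩ := exists_inc (W := W) (off := W) (ρ := ρ) (by
                change jv W ρ + 1 < 2 ^ W
                omega)
              have hjv' : jv W (upd ρ (gd W W j false)) = jv W ρ + 1 := inc_block hjW hgj
              refine TDer.of (g := gd W 0 i false ++ gd W W j true)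
                (p := pre D W (c t).q ((c t).read (D.M.κ (c t).q)) i ++
                  [(cce (D.M.κ (c t).q) none, gd W 0 i true ++ gd W W j false)]) (hmem _ ?_) ?_ ?_
              · unfold popRules
                simp only [List.mem_append, List.mem_map, List.mem_range]
                exact Or.inl (Or.inr ⟨j, hjW, rfl⟩)
              · intro g hg'
                rw [List.mem_append] at hg'
                rcases hg' with hg' | hg'
                · exact hg g hg'
                · exact hgj g hg'
              · intro s hs
                simp only [List.mem_append, List.mem_singleton] at hs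
                rcases hs with hs | rfl
                · exact hpre ρ i htv s hs
                · have := ih2 (upd ρ (gd W 0 i true ++ gd W W j false))
                    (by rw [tvTJ hi hjW, htv]) (D.M.κ (c t).q)
                  rw [jvTJ hi, hjv', (vis_eq_none (hfull t)).2 (by omega)] at this
                  exact this
        · -- push
          rw [vis_push ha]
          have hmem : ∀ R ∈ pushRules D W (c t).q ((c t).read (D.M.κ (c t).q)) a i,
              R ∈ rules D W y N b := by
            intro R hR
            refine mem_rules_step (q := (c t).q) (r := (c t).read (D.M.κ (c t).q)) hqs hos hi ?_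
            unfold stepRules
            rw [List.mem_append, List.mem_append]
            refine Or.inl (Or.inr ?_)
            rw [ha]
            exact hR
          have hcell : ∀ s, s = (cce (D.M.κ (c t).q) (vis (c t) (D.M.κ (c t).q) (jv W ρ)),
              gd W 0 i true) → TDer (rules D W y N b) s.1 (upd ρ s.2) := by
            rintro s rfl
            have := ih2 (upd ρ (gd W 0 i true)) htv (D.M.κ (c t).q)
            rw [jv_gdT hi] at this
            exact this
          by_cases hj : jv W ρ < (c t).h (D.M.κ (c t).q)
          · rw [if_pos hj]
            have hs1 : (vis (c t) (D.M.κ (c t).q) (jv W ρ)).isSome = true := by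
              rw [Option.isSome_iff_ne_none, vis_ne_none (hfull t)]; omega
            refine TDer.of (g := gd W 0 i false)
              (p := pre D W (c t).q ((c t).read (D.M.κ (c t).q)) i ++
                [(cce (D.M.κ (c t).q) (vis (c t) (D.M.κ (c t).q) (jv W ρ)), gd W 0 i true)])
              (hmem _ ?_) hg ?_
            · unfold pushRules
              simp only [List.mem_append, List.mem_map, List.mem_filter]
              exact Or.inl (Or.inl (Or.inl ⟨_, ⟨hos _, hs1⟩, rfl⟩))
            · intro s hs
              simp only [List.mem_append, List.mem_singleton] at hs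
              rcases hs with hs | hs
              · exact hpre ρ i htv s hs
              · exact hcell s hs
          · rw [if_neg hj]
            have hnone : vis (c t) (D.M.κ (c t).q) (jv W ρ) = none :=
              (vis_eq_none (hfull t)).2 (by omega)
            rw [hnone] at hcell
            by_cases hj0 : jv W ρ = 0
            · rw [if_pos (by omega)]
              refine TDer.of (g := gd W 0 i false ++ geq W W 0)
                (p := pre D W (c t).q ((c t).read (D.M.κ (c t).q)) i ++
                  [(cce (D.M.κ (c t).q) none, gd W 0 i true)]) (hmem _ ?_) ?_ ?_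
              · unfold pushRules
                simp only [List.mem_append, List.mem_singleton]
                exact Or.inl (Or.inl (Or.inr trivial))
              · intro g hg'
                rw [List.mem_append] at hg'
                rcases hg' with hg' | hg'
                · exact hg g hg'
                · exact (geq_iff (by positivity)).2 hj0 g hg'
              · intro s hs
                simp only [List.mem_append, List.mem_singleton] at hs
                rcases hs with hs | hs
                · exact hpre ρ i htv s hs
                · exact hcell s hs
            · obtain ⟨j, hjW, hgj⟩ := exists_dec (W := W) (off := W) (ρ := ρ) (by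
                change 0 < jv W ρ
                omega)
              have hjv' : jv W ρ = jv W (upd ρ (gd W W j true)) + 1 := dec_block hjW hgj
              have hgg : ∀ g ∈ gd W 0 i false ++ gd W W j false, ρ g.1 = g.2 := by
                intro g hg'
                rw [List.mem_append] at hg'
                rcases hg' with hg' | hg'
                · exact hg g hg'
                · exact hgj g hg'
              by_cases hjh : jv W ρ = (c t).h (D.M.κ (c t).q)
              · rw [if_pos hjh]
                have hs1 : (vis (c t) (D.M.κ (c t).q)
                    (jv W (upd ρ (gd W W j true)))).isSome = true := by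
                  rw [Option.isSome_iff_ne_none, vis_ne_none (hfull t)]; omega
                refine TDer.of (g := gd W 0 i false ++ gd W W j false)
                  (p := pre D W (c t).q ((c t).read (D.M.κ (c t).q)) i ++
                    [(cce (D.M.κ (c t).q) none, gd W 0 i true),
                    (cce (D.M.κ (c t).q) (vis (c t) (D.M.κ (c t).q)
                      (jv W (upd ρ (gd W W j true)))), gd W 0 i true ++ gd W W j true)])
                    (hmem _ ?_) hgg ?_
                · unfold pushRules
                  simp only [List.mem_append, List.mem_map, List.mem_flatMap, List.mem_filter,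
                    List.mem_range]
                  exact Or.inl (Or.inr ⟨_, ⟨hos _, hs1⟩, j, hjW, rfl⟩)
                · intro s hs
                  simp only [List.mem_append, List.mem_cons, List.not_mem_nil, or_false] at hs
                  rcases hs with hs | hs | rfl
                  · exact hpre ρ i htv s hs
                  · exact hcell s hs
                  · have := ih2 (upd ρ (gd W 0 i true ++ gd W W j true))
                      (by rw [tvTJ hi hjW, htv]) (D.M.κ (c t).q)
                    rw [jvTJ hi] at this
                    exact this
              · rw [if_neg hjh]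
                refine TDer.of (g := gd W 0 i false ++ gd W W j false)
                  (p := pre D W (c t).q ((c t).read (D.M.κ (c t).q)) i ++
                    [(cce (D.M.κ (c t).q) none, gd W 0 i true ++ gd W W j true)])
                    (hmem _ ?_) hgg ?_
                · unfold pushRules
                  simp only [List.mem_append, List.mem_map, List.mem_range]
                  exact Or.inr ⟨j, hjW, rfl⟩
                · intro s hs
                  simp only [List.mem_append, List.mem_singleton] at hs
                  rcases hs with hs | rfl
                  · exact hpre ρ i htv s hs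
                  · have := ih2 (upd ρ (gd W 0 i true ++ gd W W j true))
                      (by rw [tvTJ hi hjW, htv]) (D.M.κ (c t).q)
                    rw [jvTJ hi, (vis_eq_none (hfull t)).2 (by omega)] at this
                    exact this

include hqs hks hos in
theorem complete (hstep : ∀ t, c (t + 1) = D.M.step (c t)) (hfull : ∀ t, Full (c t))
    (hc0 : c 0 = init D 0 y []) (hy : y.length < 2 ^ W)
    (hb : ∀ t ≤ N, ∀ k, (c t).h k < 2 ^ W) (hN : N < 2 ^ W) (hW : 0 < W)
    (hfin : Accepts D (c N) ↔ b = true) (ρ : ℕ → Bool) :
    TDer (rules D W y N b) cgo ρ := by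
  have hW1 : 1 < 2 ^ W := Nat.one_lt_two_pow (by omega)
  obtain ⟨h1, h2⟩ := complete_aux (b := b) hqs hks hos hstep hfull hc0 hy hb N le_rfl
  have g1 : TDer (rules D W y N b) (cst (c N).q) (upd ρ (geq W 0 N)) := h1 _ (tv_geqT hN)
  have g2 : TDer (rules D W y N b) (cce D.k₁ (vis (c N) D.k₁ 0))
      (upd ρ (geq W 0 N ++ geq W W 0)) := by
    have := h2 (upd ρ (geq W 0 N ++ geq W W 0)) (tvGG hN) D.k₁
    rwa [jvGG (by positivity)] at this
  have g3 : TDer (rules D W y N b) (cce D.k₁ (vis (c N) D.k₁ 1))
      (upd ρ (geq W 0 N ++ geq W W 1)) := by
    have := h2 (upd ρ (geq W 0 N ++ geq W W 1)) (tvGG hN) D.k₁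
    rwa [jvGG hW1] at this
  cases b with
  | true =>
    obtain ⟨e1, ⟨e2, e3⟩, e4⟩ := (accepts_vis (hfull N)).1 (hfin.2 rfl)
    rw [e4] at g3
    refine TDer.of (g := []) (p := [(cst (c N).q, geq W 0 N),
      (cce D.k₁ (vis (c N) D.k₁ 0), geq W 0 N ++ geq W W 0),
      (cce D.k₁ none, geq W 0 N ++ geq W W 1)]) (mem_rules_fin ?_) (by simp) ?_
    · unfold finRules
      simp only [if_true, List.mem_map, List.mem_flatMap, List.mem_filter, Bool.and_eq_true]
      exact ⟨(c N).q, ⟨hqs _, e1⟩, vis (c N) D.k₁ 0, ⟨hos _,
        Option.isSome_iff_ne_none.2 e2, e3⟩, rfl⟩
    · intro s hs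
      simp only [List.mem_cons, List.not_mem_nil, or_false] at hs
      rcases hs with rfl | rfl | rfl
      · exact g1
      · exact g2
      · exact g3
  | false =>
    have hna : ¬ Accepts D (c N) := fun h => by simpa using hfin.1 h
    rw [accepts_vis (hfull N)] at hna
    by_cases e1 : D.acc (c N).q = true
    · by_cases e2 : ((vis (c N) D.k₁ 0).isSome && D.good (vis (c N) D.k₁ 0)) = true
      · have e4 : vis (c N) D.k₁ 1 ≠ none := by
          intro e4
          rw [Bool.and_eq_true] at e2
          exact hna ⟨e1, ⟨Option.isSome_iff_ne_none.1 e2.1, e2.2⟩, e4⟩
        refine TDer.of (g := []) (p := [(cce D.k₁ (vis (c N) D.k₁ 1), geq W 0 N ++ geq W W 1)])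
          (mem_rules_fin ?_) (by simp) ?_
        · unfold finRules
          rw [if_neg (by simp)]
          simp only [List.mem_append, List.mem_map, List.mem_filter]
          exact Or.inr ⟨_, ⟨hos _, Option.isSome_iff_ne_none.2 e4⟩, rfl⟩
        · intro s hs
          rw [List.mem_singleton] at hs
          subst hs
          exact g3
      · refine TDer.of (g := []) (p := [(cce D.k₁ (vis (c N) D.k₁ 0), geq W 0 N ++ geq W W 0)])
          (mem_rules_fin ?_) (by simp) ?_
        · unfold finRules
          rw [if_neg (by simp)]
          simp only [List.mem_append, List.mem_map, List.mem_filter]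
          refine Or.inl (Or.inr ⟨_, ⟨hos _, ?_⟩, rfl⟩)
          cases hh : ((vis (c N) D.k₁ 0).isSome && D.good (vis (c N) D.k₁ 0)) with
          | true => exact absurd hh e2
          | false => rfl
        · intro s hs
          rw [List.mem_singleton] at hs
          subst hs
          exact g2
    · refine TDer.of (g := []) (p := [(cst (c N).q, geq W 0 N)]) (mem_rules_fin ?_) (by simp) ?_
      · unfold finRules
        rw [if_neg (by simp)]
        simp only [List.mem_append, List.mem_map, List.mem_filter]
        exact Or.inl (Or.inl ⟨_, ⟨hqs _, by simpa using e1⟩, rfl⟩)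
      · intro s hs
        rw [List.mem_singleton] at hs
        subst hs
        exact g1

end

end Pool.Agent.H578R2.ARM
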