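import Pool.Agent.H578R2.ARM.Sys

/-!
# Correctness of the rules
-/

namespace Pool.Agent.H578R2.ARM

open Pool.Agent.H820R2.SS Pool.Agent.NPC.CL

theorem tvTJ {W i j : ℕ} {b b' : Bool} {ρ : ℕ → Bool} (hi : i < W) (hj : j < W) :
    tv W (upd ρ (gd W 0 i b ++ gd W W j b')) = tv W (upd ρ (gd W 0 i b)) :=
  bv_congr fun l hl => by
    rw [upd_append, upd_gd hi, upd_gd hi, upd_gd hj, if_neg (show ¬ 0 + l = W + j by omega),
      if_neg (show ¬ (W ≤ 0 + l ∧ 0 + l < W + j) by omega)]

theorem jvTJ {W i j : ℕ} {b b' : Bool} {ρ : ℕ → Bool} (hi : i < W) :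
    jv W (upd ρ (gd W 0 i b ++ gd W W j b')) = jv W (upd ρ (gd W W j b')) := by
  rw [upd_append, jv_gdT hi]

theorem tvTG {W i v : ℕ} {b : Bool} {ρ : ℕ → Bool} (hi : i < W) :
    tv W (upd ρ (gd W 0 i b ++ geq W W v)) = tv W (upd ρ (gd W 0 i b)) :=
  bv_congr fun l hl => by
    rw [upd_append, upd_gd hi, upd_gd hi, upd_geq, if_neg (show ¬ (W ≤ 0 + l ∧ 0 + l < W + W) by
      omega)]

theorem tvGG {W u v : ℕ} {ρ : ℕ → Bool} (hu : u < 2 ^ W) :
    tv W (upd ρ (geq W 0 u ++ geq W W v)) = u := by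
  rw [upd_append, tv_geqT hu]

theorem jvGG {W u v : ℕ} {ρ : ℕ → Bool} (hv : v < 2 ^ W) :
    jv W (upd ρ (geq W 0 u ++ geq W W v)) = v := by
  rw [upd_append, jv_geqT, jv_geqJ hv]

theorem tv_single {W l : ℕ} {b : Bool} {ρ : ℕ → Bool} : tv W (upd ρ [(W + l, b)]) = tv W ρ :=
  bv_congr fun m hm => by
    unfold upd
    rw [List.lookup_cons]
    have : (0 + m == W + l) = false := beq_eq_false_iff_ne.2 (by omega)
    rw [this]
    rfl

variable {Q K A : Type} [DecidableEq K] {D : Tab Q K A} {W : ℕ}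

/-- The meaning of the controls. -/
def Mean (W : ℕ) (c : ℕ → Cf Q K A) (fin : Prop) : Ctl Q K A → (ℕ → Bool) → Prop
  | Sum.inl q, ρ => (c (tv W ρ)).q = q
  | Sum.inr (Sum.inl (k, r)), ρ => (c (tv W ρ)).read k = r
  | Sum.inr (Sum.inr (Sum.inl (k, o))), ρ => vis (c (tv W ρ)) k (jv W ρ) = o
  | Sum.inr (Sum.inr (Sum.inr ())), _ => fin

variable {c : ℕ → Cf Q K A} {fin : Prop}

omit [DecidableEq K] in
theorem mean_st {q : Q} {ρ : ℕ → Bool} : Mean W c fin (cst q) ρ ↔ (c (tv W ρ)).q = q := Iff.rfl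
omit [DecidableEq K] in
theorem mean_rd {k : K} {r : Option A} {ρ : ℕ → Bool} :
    Mean W c fin (crd k r) ρ ↔ (c (tv W ρ)).read k = r := Iff.rfl
omit [DecidableEq K] in
theorem mean_ce {k : K} {o : Option A} {ρ : ℕ → Bool} :
    Mean W c fin (cce k o) ρ ↔ vis (c (tv W ρ)) k (jv W ρ) = o := Iff.rfl
omit [DecidableEq K] in
theorem mean_go {ρ : ℕ → Bool} : Mean W c fin cgo ρ ↔ fin := Iff.rfl

omit [DecidableEq K] in
theorem pre_sound {q : Q} {r : Option A} {i : ℕ} (hi : i < W) {ρ : ℕ → Bool}
    (hg : ∀ g ∈ gd W 0 i false, ρ g.1 = g.2)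
    (hp : ∀ s ∈ pre D W q r i, Mean W c fin s.1 (upd ρ s.2)) :
    ∃ t, tv W ρ = t + 1 ∧ tv W (upd ρ (gd W 0 i true)) = t ∧ (c t).q = q ∧
      (c t).read (D.M.κ q) = r := by
  refine ⟨tv W (upd ρ (gd W 0 i true)), dec_block hi hg, rfl, ?_, ?_⟩
  · exact mean_st.1 (hp (cst q, gd W 0 i true) (by simp [pre]))
  · exact mean_rd.1 (hp (crd (D.M.κ q) r, gd W 0 i true) (by simp [pre]))

theorem step_sound (hstep : ∀ t, c (t + 1) = D.M.step (c t)) (hfull : ∀ t, Full (c t))
    {q : Q} {r : Option A} {i : ℕ} (hi : i < W) {R : TRule (Ctl Q K A)}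
    (hR : R ∈ stepRules D W q r i) {ρ : ℕ → Bool} (hg : ∀ g ∈ R.2.1, ρ g.1 = g.2)
    (hp : ∀ s ∈ R.2.2, Mean W c fin s.1 (upd ρ s.2)) : Mean W c fin R.1 ρ := by
  unfold stepRules at hR
  rw [List.mem_append, List.mem_append, List.mem_append] at hR
  rcases hR with ((hR | hR) | hR) | hR
  · rw [List.mem_singleton] at hR
    subst hR
    obtain ⟨t, h1, h2, h3, h4⟩ := pre_sound hi hg hp
    rw [mean_st, h1, hstep]
    unfold NM.step
    simp only [h3, h4]
  · unfold keepRules at hR
    rw [List.mem_flatMap] at hR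
    obtain ⟨k, _, hR⟩ := hR
    rw [List.mem_flatMap] at hR
    obtain ⟨o, _, hR⟩ := hR
    split_ifs at hR with hcond
    · rw [List.mem_singleton] at hR
      subst hR
      simp only [List.mem_append, List.mem_singleton] at hp hg ⊢
      obtain ⟨t, h1, h2, h3, h4⟩ := pre_sound hi hg fun s hs => hp s (Or.inl hs)
      have h5 := mean_ce.1 (hp _ (Or.inr rfl))
      rw [h2, jv_gdT hi] at h5
      rw [mean_ce, h1, hstep, vis_keep (by rw [h3, h4]; exact hcond)]
      exact h5
    · simp at hR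
  · cases hpu : pushed D q r with
    | none => rw [hpu] at hR; simp at hR
    | some a =>
      rw [hpu] at hR
      simp only [pushRules, List.mem_append, List.mem_map, List.mem_flatMap, List.mem_singleton,
        List.mem_filter, List.mem_range] at hR
      rcases hR with ((⟨o, ⟨_, ho⟩, rfl⟩ | rfl) | ⟨o, ⟨_, ho⟩, j, hj, rfl⟩) | ⟨j, hj, rfl⟩
      · simp only [List.mem_append, List.mem_singleton] at hp hg ⊢
        obtain ⟨t, h1, h2, h3, h4⟩ := pre_sound hi hg fun s hs => hp s (Or.inl hs)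
        have h5 := mean_ce.1 (hp _ (Or.inr rfl))
        rw [h2, jv_gdT hi] at h5
        have h6 : vis (c t) (D.M.κ q) (jv W ρ) ≠ none := by
          rw [h5]; exact Option.isSome_iff_ne_none.1 ho
        rw [vis_ne_none (hfull t)] at h6
        subst h3
        rw [mean_ce, h1, hstep, vis_push (by rw [h4]; exact hpu), if_pos h6]
        exact h5
      · simp only [List.mem_append, List.mem_singleton] at hp hg ⊢
        obtain ⟨t, h1, h2, h3, h4⟩ := pre_sound hi (fun g hg' => hg g (Or.inl hg'))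
          fun s hs => hp s (Or.inl hs)
        have h5 := mean_ce.1 (hp _ (Or.inr rfl))
        have h7 : jv W ρ = 0 := (geq_iff (by positivity)).1 fun g hg' => hg g (Or.inr hg')
        rw [h2, jv_gdT hi, h7, vis_eq_none (hfull t)] at h5
        subst h3
        rw [mean_ce, h1, hstep, vis_push (by rw [h4]; exact hpu), h7, if_neg (by omega),
          if_pos (by omega)]
      · simp only [List.mem_append, List.mem_cons, List.not_mem_nil, or_false] at hp hg ⊢
        obtain ⟨t, h1, h2, h3, h4⟩ := pre_sound hi (fun g hg' => hg g (Or.inl hg'))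
          fun s hs => hp s (Or.inl hs)
        have h5 := mean_ce.1 (hp _ (Or.inr (Or.inl rfl)))
        have h6 := mean_ce.1 (hp _ (Or.inr (Or.inr rfl)))
        have h7 : jv W ρ = jv W (upd ρ (gd W W j true)) + 1 :=
          dec_block hj fun g hg' => hg g (Or.inr hg')
        rw [tvTJ hi hj, jvTJ hi, h2] at h6
        rw [h2, jv_gdT hi, vis_eq_none (hfull t)] at h5
        have h8 : vis (c t) (D.M.κ q) (jv W (upd ρ (gd W W j true))) ≠ none := by
          rw [h6]; exact Option.isSome_iff_ne_none.1 ho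
        rw [vis_ne_none (hfull t)] at h8
        subst h3
        rw [mean_ce, h1, hstep, vis_push (by rw [h4]; exact hpu), if_neg (by omega),
          if_pos (by omega)]
      · simp only [List.mem_append, List.mem_singleton] at hp hg ⊢
        obtain ⟨t, h1, h2, h3, h4⟩ := pre_sound hi (fun g hg' => hg g (Or.inl hg'))
          fun s hs => hp s (Or.inl hs)
        have h6 := mean_ce.1 (hp _ (Or.inr rfl))
        have h7 : jv W ρ = jv W (upd ρ (gd W W j true)) + 1 :=
          dec_block hj fun g hg' => hg g (Or.inr hg')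
        rw [tvTJ hi hj, jvTJ hi, h2, vis_eq_none (hfull t)] at h6
        subst h3
        rw [mean_ce, h1, hstep, vis_push (by rw [h4]; exact hpu), if_neg (by omega),
          if_neg (by omega)]
  · split_ifs at hR with hk
    · simp only [popRules, List.mem_append, List.mem_map, List.mem_flatMap, List.mem_singleton,
        List.mem_filter, List.mem_range] at hR
      rcases hR with (rfl | ⟨j, hj, rfl⟩) | ⟨o, ⟨_, ho⟩, o', ⟨_, ho'⟩, j, hj, rfl⟩
      · simp only [List.mem_append, List.mem_singleton] at hp hg ⊢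
        obtain ⟨t, h1, h2, h3, h4⟩ := pre_sound hi hg fun s hs => hp s (Or.inl hs)
        have h5 := mean_ce.1 (hp _ (Or.inr rfl))
        rw [h2, jv_gdT hi, vis_eq_none (hfull t)] at h5
        subst h3
        rw [mean_ce, h1, hstep, vis_pop (by rw [h4]; exact hk), if_neg (by omega)]
      · simp only [List.mem_append, List.mem_singleton] at hp hg ⊢
        obtain ⟨t, h1, h2, h3, h4⟩ := pre_sound hi (fun g hg' => hg g (Or.inl hg'))
          fun s hs => hp s (Or.inl hs)
        have h5 := mean_ce.1 (hp _ (Or.inr rfl))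
        have h7 : jv W (upd ρ (gd W W j false)) = jv W ρ + 1 :=
          inc_block hj fun g hg' => hg g (Or.inr hg')
        rw [tvTJ hi hj, jvTJ hi, h2, h7, vis_eq_none (hfull t)] at h5
        subst h3
        rw [mean_ce, h1, hstep, vis_pop (by rw [h4]; exact hk), if_neg (by omega)]
      · simp only [List.mem_append, List.mem_cons, List.not_mem_nil, or_false] at hp hg ⊢
        obtain ⟨t, h1, h2, h3, h4⟩ := pre_sound hi (fun g hg' => hg g (Or.inl hg'))
          fun s hs => hp s (Or.inl hs)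
        have h5 := mean_ce.1 (hp _ (Or.inr (Or.inl rfl)))
        have h6 := mean_ce.1 (hp _ (Or.inr (Or.inr rfl)))
        have h7 : jv W (upd ρ (gd W W j false)) = jv W ρ + 1 :=
          inc_block hj fun g hg' => hg g (Or.inr hg')
        rw [tvTJ hi hj, jvTJ hi, h2, h7] at h6
        rw [h2, jv_gdT hi] at h5
        have h8 : vis (c t) (D.M.κ q) (jv W ρ + 1) ≠ none := by
          rw [h6]; exact Option.isSome_iff_ne_none.1 ho'
        rw [vis_ne_none (hfull t)] at h8
        subst h3
        rw [mean_ce, h1, hstep, vis_pop (by rw [h4]; exact hk), if_pos h8]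
        exact h5
    · simp at hR

theorem rd_sound (hfull : ∀ t, Full (c t)) {R : TRule (Ctl Q K A)}
    (hR : R ∈ rdRules D W) {ρ : ℕ → Bool} (hg : ∀ g ∈ R.2.1, ρ g.1 = g.2)
    (hp : ∀ s ∈ R.2.2, Mean W c fin s.1 (upd ρ s.2)) : Mean W c fin R.1 ρ := by
  unfold rdRules at hR
  simp only [List.mem_append, List.mem_map, List.mem_flatMap, List.mem_singleton,
        List.mem_filter, List.mem_range] at hR
  obtain ⟨k, _, ((rfl | ⟨r, _, b, _, l, _, rfl⟩) | ⟨r, ⟨_, hr⟩, j, hj, rfl⟩)⟩ := hR
  · have h5 := mean_ce.1 (hp _ (List.mem_singleton_self _))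
    simp only at h5
    rw [tv_geqJ, jv_geqJ (by positivity), vis_eq_none (hfull _)] at h5
    rw [mean_rd, read_none (hfull _)]
    omega
  · have h5 := mean_rd.1 (hp _ (List.mem_singleton_self _))
    simp only at h5
    rw [tv_single] at h5
    exact h5
  · simp only [List.mem_cons, List.not_mem_nil, or_false] at hp hg
    have h5 := mean_ce.1 (hp _ (Or.inl rfl))
    have h6 := mean_ce.1 (hp _ (Or.inr rfl))
    simp only [upd_nil] at h5
    have h7 : jv W (upd ρ (gd W W j false)) = jv W ρ + 1 := inc_block hj hg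
    rw [tv_gdJ hj, h7, vis_eq_none (hfull _)] at h6
    have h8 : vis (c (tv W ρ)) k (jv W ρ) ≠ none := by
      rw [h5]; exact Option.isSome_iff_ne_none.1 hr
    rw [vis_ne_none (hfull _)] at h8
    rw [mean_rd, read_succ (n := jv W ρ) (by omega)]
    exact h5

theorem vis_init (y : List Bool) (k : K) (j : ℕ) : vis (init D 0 y []) k j =
    if k = D.k₀ then (y.reverse[j]?).map D.sym else none := by
  unfold vis init
  simp only
  by_cases hk : k = D.k₀
  · rw [if_pos hk, if_pos hk, if_pos hk]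
    have h1 : List.replicate (0 - ([] : List Bool).length) (none : Option A) ++
        ((y ++ []).map (fun b => some (D.sym b))).reverse =
        y.reverse.map (fun b => some (D.sym b)) := by simp
    rw [h1, List.getElem?_map]
    by_cases hj : j < y.length
    · rw [if_pos (by omega)]
      cases y.reverse[j]? <;> rfl
    · rw [if_neg (by omega), List.getElem?_eq_none (by simpa using hj)]
      rfl
  · rw [if_neg hk, if_neg hk, if_neg hk]
    simp

theorem init_sound {y : List Bool} (hy : y.length < 2 ^ W) (hc0 : c 0 = init D 0 y [])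
    (hfull : ∀ t, Full (c t)) {R : TRule (Ctl Q K A)}
    (hR : R ∈ initRules D W y) {ρ : ℕ → Bool} (hg : ∀ g ∈ R.2.1, ρ g.1 = g.2)
    (hp : ∀ s ∈ R.2.2, Mean W c fin s.1 (upd ρ s.2)) : Mean W c fin R.1 ρ := by
  unfold initRules at hR
  simp only [List.mem_append, List.mem_map, List.mem_flatMap, List.mem_singleton,
        List.mem_filter, List.mem_range, decide_eq_true_eq] at hR
  rcases hR with (((rfl | ⟨k, ⟨_, hk⟩, rfl⟩) | ⟨⟨a, j⟩, hj, rfl⟩) | rfl) | ⟨j, hj, rfl⟩
  · have h7 : tv W ρ = 0 := (geq_iff (by positivity)).1 hg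
    rw [mean_st, h7, hc0]
    rfl
  · have h7 : tv W ρ = 0 := (geq_iff (by positivity)).1 hg
    rw [mean_ce, h7, hc0, vis_init, if_neg hk]
  · simp only [List.mem_append] at hg
    have h7 : tv W ρ = 0 := (geq_iff (by positivity)).1 fun g hg' => hg g (Or.inl hg')
    have h9 := List.mem_zipIdx_iff_getElem?.1 hj
    simp only at h9
    have h10 : j < y.length := by
      obtain ⟨h, _⟩ := List.getElem?_eq_some_iff.1 h9
      simpa using h
    have h8 : jv W ρ = j := (geq_iff (by omega)).1 fun g hg' => hg g (Or.inr hg')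
    rw [mean_ce, h7, h8, hc0, vis_init, if_pos rfl, h9]
    rfl
  · simp only [List.mem_append] at hg
    have h7 : tv W ρ = 0 := (geq_iff (by positivity)).1 fun g hg' => hg g (Or.inl hg')
    have h8 : jv W ρ = y.length := (geq_iff hy).1 fun g hg' => hg g (Or.inr hg')
    rw [mean_ce, h7, h8, hc0, vis_init, if_pos rfl, List.getElem?_eq_none (by simp)]
    rfl
  · simp only [List.mem_append, List.mem_singleton] at hg hp
    have h7 : tv W ρ = 0 := (geq_iff (by positivity)).1 fun g hg' => hg g (Or.inl hg')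
    have h5 := mean_ce.1 (hp _ rfl)
    simp only at h5
    have h8 : jv W ρ = jv W (upd ρ (gd W W j true)) + 1 :=
      dec_block hj fun g hg' => hg g (Or.inr hg')
    rw [tv_gdJ hj, vis_eq_none (hfull _)] at h5
    rw [mean_ce, vis_eq_none (hfull _), h8]
    omega

theorem fin_sound {N : ℕ} (hN : N < 2 ^ W) (hW : 0 < W) {b : Bool} (hfull : ∀ t, Full (c t))
    (hfin : fin ↔ (Accepts D (c N) ↔ b = true)) {R : TRule (Ctl Q K A)}
    (hR : R ∈ finRules D W N b) {ρ : ℕ → Bool}
    (hp : ∀ s ∈ R.2.2, Mean W c fin s.1 (upd ρ s.2)) : Mean W c fin R.1 ρ := by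
  have hW1 : 1 < 2 ^ W := Nat.one_lt_two_pow (by omega)
  unfold finRules at hR
  cases b with
  | true =>
    simp only [if_true, List.mem_map, List.mem_flatMap, List.mem_filter, Bool.and_eq_true] at hR
    obtain ⟨q, ⟨_, hq⟩, o, ⟨_, ho, ho'⟩, rfl⟩ := hR
    simp only [List.mem_cons, List.not_mem_nil, or_false] at hp
    have h1 := mean_st.1 (hp _ (Or.inl rfl))
    have h2 := mean_ce.1 (hp _ (Or.inr (Or.inl rfl)))
    have h3 := mean_ce.1 (hp _ (Or.inr (Or.inr rfl)))
    simp only at h1 h2 h3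
    rw [tv_geqT hN] at h1
    rw [tvGG hN, jvGG (by positivity)] at h2
    rw [tvGG hN, jvGG hW1] at h3
    rw [mean_go, hfin]
    refine ⟨fun _ => rfl, fun _ => (accepts_vis (hfull _)).2 ⟨by rw [h1]; exact hq, ⟨?_, ?_⟩, h3⟩⟩
    · rw [h2]
      exact Option.isSome_iff_ne_none.1 ho
    · rw [h2]
      exact ho'
  | false =>
    rw [if_neg (by simp)] at hR
    simp only [List.mem_append, List.mem_map, List.mem_filter, Bool.not_eq_true'] at hR
    have hgoal : ¬ Accepts D (c N) → fin := fun h => hfin.2 ⟨fun h' => absurd h' h, fun h' => by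
      simp at h'⟩
    rcases hR with (⟨q, ⟨_, hq⟩, rfl⟩ | ⟨o, ⟨_, ho⟩, rfl⟩) | ⟨o, ⟨_, ho⟩, rfl⟩
    · have h1 := mean_st.1 (hp _ (List.mem_singleton_self _))
      simp only at h1
      rw [tv_geqT hN] at h1
      rw [mean_go]
      apply hgoal
      rw [accepts_vis (hfull _), h1, hq]
      simp
    · have h2 := mean_ce.1 (hp _ (List.mem_singleton_self _))
      simp only at h2
      rw [tvGG hN, jvGG (by positivity)] at h2
      rw [mean_go]
      apply hgoal
      rw [accepts_vis (hfull _), h2]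
      rintro ⟨_, ⟨h3, h4⟩, _⟩
      rw [Bool.and_eq_false_iff] at ho
      rcases ho with ho | ho
      · exact h3 (by simpa using ho)
      · rw [h4] at ho
        simp at ho
    · have h2 := mean_ce.1 (hp _ (List.mem_singleton_self _))
      simp only at h2
      rw [tvGG hN, jvGG hW1] at h2
      rw [mean_go]
      apply hgoal
      rw [accepts_vis (hfull _), h2]
      rintro ⟨_, _, h4⟩
      rw [h4] at ho
      simp at ho

end Pool.Agent.H578R2.ARM
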