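import Pool.Agent.H820R2.SS.ARM

/-!
# Counters in registers
-/

namespace Pool.Agent.H578R2.ARM

open Pool.Agent.H820R2.SS

/-- The number with binary digits `f 0, …, f (W - 1)`. -/
def bv : ℕ → (ℕ → Bool) → ℕ
  | 0, _ => 0
  | W + 1, f => (if f W then 2 ^ W else 0) + bv W f

theorem bv_lt (W : ℕ) (f : ℕ → Bool) : bv W f < 2 ^ W := by
  induction W with
  | zero => simp [bv]
  | succ W ih =>
    rw [bv, pow_succ]
    split_ifs <;> omega

theorem bv_congr {W : ℕ} {f g : ℕ → Bool} (h : ∀ l < W, f l = g l) : bv W f = bv W g := by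
  induction W with
  | zero => rfl
  | succ W ih =>
    rw [bv, bv, h W (by omega), ih fun l hl => h l (by omega)]

theorem bv_testBit {W : ℕ} {f : ℕ → Bool} : ∀ l < W, (bv W f).testBit l = f l := by
  induction W with
  | zero => intro l hl; omega
  | succ W ih =>
    intro l hl
    rw [bv]
    have h1 := bv_lt W f
    by_cases hlW : l = W
    · subst hlW
      split_ifs with hf
      · rw [Nat.testBit_two_pow_add_eq, Nat.testBit_lt_two_pow h1, hf]
        rfl
      · rw [zero_add, Nat.testBit_lt_two_pow h1]
        simpa using hf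
    · split_ifs with hf
      · rw [Nat.testBit_two_pow_add_gt (by omega), ih l (by omega)]
      · rw [zero_add, ih l (by omega)]

theorem bv_eq_iff {W : ℕ} {f : ℕ → Bool} {v : ℕ} (hv : v < 2 ^ W) :
    bv W f = v ↔ ∀ l < W, f l = v.testBit l := by
  constructor
  · rintro rfl l hl
    rw [bv_testBit l hl]
  · intro h
    apply Nat.eq_of_testBit_eq
    intro l
    by_cases hl : l < W
    · rw [bv_testBit l hl, h l hl]
    · have h1 : 2 ^ W ≤ 2 ^ l := Nat.pow_le_pow_right (by norm_num) (by omega)
      rw [Nat.testBit_lt_two_pow ((bv_lt W f).trans_le h1), Nat.testBit_lt_two_pow (by omega)]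

theorem bv_all {W : ℕ} {f : ℕ → Bool} (h : ∀ l < W, f l = true) : bv W f + 1 = 2 ^ W := by
  induction W with
  | zero => simp [bv]
  | succ W ih =>
    have := ih fun l hl => h l (by omega)
    rw [bv, if_pos (h W (by omega)), pow_succ]
    omega

theorem bv_none {W : ℕ} {f : ℕ → Bool} (h : ∀ l < W, f l = false) : bv W f = 0 := by
  induction W with
  | zero => simp [bv]
  | succ W ih =>
    have := ih fun l hl => h l (by omega)
    rw [bv, if_neg (by rw [h W (by omega)]; simp), this]

theorem bv_inc {W i : ℕ} {f g : ℕ → Bool} (hi : i < W) (h1 : ∀ l < i, f l = true)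
    (h2 : f i = false) (h3 : ∀ l < i, g l = false) (h4 : g i = true)
    (h5 : ∀ l, i < l → l < W → g l = f l) : bv W g = bv W f + 1 := by
  induction W with
  | zero => omega
  | succ W ih =>
    rw [bv, bv]
    by_cases hiW : i = W
    · subst hiW
      have e1 := bv_all h1
      have e2 := bv_none h3
      rw [if_pos h4, if_neg (by rw [h2]; simp), e2]
      omega
    · rw [h5 W (by omega) (by omega), ih (by omega) fun l hl hl' => h5 l hl (by omega)]
      omega

/-! ### Guards and updates -/

/-- The guards: digit `i` of the block starting at `off` is `!b`, and all lower digits are `b`. -/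
def gd (W off i : ℕ) (b : Bool) : List (ℕ × Bool) :=
  (off + i, !b) :: ((List.range W).filter fun l => decide (l < i)).map fun l => (off + l, b)

/-- The guards: the number in the block starting at `off` is `v`. -/
def geq (W off v : ℕ) : List (ℕ × Bool) := (List.range W).map fun l => (off + l, v.bits.getD l false)

theorem gd_iff {W off i : ℕ} {b : Bool} {ρ : ℕ → Bool} (hi : i < W) :
    (∀ g ∈ gd W off i b, ρ g.1 = g.2) ↔ ρ (off + i) = !b ∧ ∀ l < i, ρ (off + l) = b := by
  simp only [gd, List.mem_cons, List.mem_map, List.mem_filter, List.mem_range, decide_eq_true_eq]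
  constructor
  · intro h
    exact ⟨h _ (Or.inl rfl), fun l hl => h (off + l, b) (Or.inr ⟨l, ⟨by omega, hl⟩, rfl⟩)⟩
  · rintro ⟨h1, h2⟩ g (rfl | ⟨l, ⟨_, hl⟩, rfl⟩)
    · exact h1
    · exact h2 l hl

theorem bits_getD (v l : ℕ) : v.bits.getD l false = v.testBit l := by
  rw [Nat.testBit_eq_inth]
  simp [List.getI_eq_getElem?_getD, List.getD_eq_getElem?_getD]

theorem geq_iff {W off v : ℕ} {ρ : ℕ → Bool} (hv : v < 2 ^ W) :
    (∀ g ∈ geq W off v, ρ g.1 = g.2) ↔ bv W (fun l => ρ (off + l)) = v := by
  rw [bv_eq_iff hv]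
  simp only [geq, List.mem_map, List.mem_range]
  constructor
  · intro h l hl
    rw [h (off + l, v.bits.getD l false) ⟨l, hl, rfl⟩, bits_getD]
  · rintro h g ⟨l, hl, rfl⟩
    rw [h l hl, bits_getD]

/-- The lookup in a list of updates of a block. -/
theorem lookup_map (L : List ℕ) (hL : L.Nodup) (off : ℕ) (F : ℕ → Bool) (j : ℕ) :
    ((L.map fun l => (off + l, F l)).lookup j) =
      if off ≤ j ∧ j - off ∈ L then some (F (j - off)) else none := by
  induction L with
  | nil => simp
  | cons a L ih =>
    rw [List.nodup_cons] at hL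
    rw [List.map_cons, List.lookup_cons, ih hL.2]
    by_cases h : j = off + a
    · subst h
      have h1 : (off + a == off + a) = true := beq_self_eq_true _
      rw [h1]
      simp
    · have h1 : (j == off + a) = false := beq_eq_false_iff_ne.2 h
      rw [h1]
      simp only [List.mem_cons]
      by_cases h2 : off ≤ j
      · have h3 : ¬ (j - off = a) := by omega
        simp [h2, h3]
      · simp [h2]

theorem upd_gd {W off i : ℕ} {b : Bool} {ρ : ℕ → Bool} (hi : i < W) (j : ℕ) :
    upd ρ (gd W off i b) j = if j = off + i then !b else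
      if off ≤ j ∧ j < off + i then b else ρ j := by
  unfold upd gd
  rw [List.lookup_cons]
  by_cases h : j = off + i
  · subst h
    have h1 : (off + i == off + i) = true := beq_self_eq_true _
    rw [h1]
    simp
  · have h1 : (j == off + i) = false := beq_eq_false_iff_ne.2 h
    rw [h1, if_neg h]
    have hnd : ((List.range W).filter fun l => decide (l < i)).Nodup :=
      List.nodup_range.filter _
    have := lookup_map _ hnd off (fun _ => b) j
    simp only [List.mem_filter, List.mem_range, decide_eq_true_eq] at this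
    simp only
    rw [this]
    by_cases h2 : off ≤ j ∧ j < off + i
    · rw [if_pos h2, if_pos ⟨h2.1, by omega, by omega⟩]
      rfl
    · rw [if_neg h2, if_neg (by omega)]
      rfl

theorem upd_geq {W off v : ℕ} {ρ : ℕ → Bool} (j : ℕ) :
    upd ρ (geq W off v) j = if off ≤ j ∧ j < off + W then v.testBit (j - off) else ρ j := by
  unfold upd geq
  have := lookup_map _ (List.nodup_range (n := W)) off (fun l => v.bits.getD l false) j
  rw [this]
  simp only [List.mem_range]
  by_cases h : off ≤ j ∧ j < off + W
  · rw [if_pos h, if_pos ⟨h.1, by omega⟩, bits_getD]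
    rfl
  · rw [if_neg h, if_neg (by omega)]
    rfl

/-- increment of a block -/
theorem inc_block {W off i : ℕ} {ρ : ℕ → Bool} (hi : i < W)
    (h : ∀ g ∈ gd W off i true, ρ g.1 = g.2) :
    bv W (fun l => upd ρ (gd W off i false) (off + l)) = bv W (fun l => ρ (off + l)) + 1 := by
  obtain ⟨h1, h2⟩ := (gd_iff hi).1 h
  refine bv_inc hi h2 h1 (fun l hl => ?_) ?_ fun l hl hl' => ?_
  · rw [upd_gd hi, if_neg (by omega), if_pos (by omega)]
  · rw [upd_gd hi, if_pos rfl]
    rfl
  · rw [upd_gd hi, if_neg (by omega), if_neg (by omega)]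

/-- decrement of a block -/
theorem dec_block {W off i : ℕ} {ρ : ℕ → Bool} (hi : i < W)
    (h : ∀ g ∈ gd W off i false, ρ g.1 = g.2) :
    bv W (fun l => ρ (off + l)) = bv W (fun l => upd ρ (gd W off i true) (off + l)) + 1 := by
  obtain ⟨h1, h2⟩ := (gd_iff hi).1 h
  refine bv_inc hi (fun l hl => ?_) ?_ h2 h1 fun l hl hl' => ?_
  · rw [upd_gd hi, if_neg (by omega), if_pos (by omega)]
  · rw [upd_gd hi, if_pos rfl]
    rfl
  · rw [upd_gd hi, if_neg (by omega), if_neg (by omega)]

theorem exists_inc {W off : ℕ} {ρ : ℕ → Bool} (h : bv W (fun l => ρ (off + l)) + 1 < 2 ^ W) :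
    ∃ i < W, ∀ g ∈ gd W off i true, ρ g.1 = g.2 := by
  classical
  have hex : ∃ i, i < W ∧ ρ (off + i) = false := by
    by_contra hno
    push Not at hno
    have := bv_all (W := W) (f := fun l => ρ (off + l)) fun l hl => by
      simpa using hno l hl
    omega
  refine ⟨Nat.find hex, (Nat.find_spec hex).1, (gd_iff (Nat.find_spec hex).1).2
    ⟨(Nat.find_spec hex).2, fun l hl => ?_⟩⟩
  have h1 := Nat.find_min hex hl
  have h2 := (Nat.find_spec hex).1
  have h3 : l < W := by omega
  simpa [h3] using h1

theorem exists_dec {W off : ℕ} {ρ : ℕ → Bool} (h : 0 < bv W (fun l => ρ (off + l))) :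
    ∃ i < W, ∀ g ∈ gd W off i false, ρ g.1 = g.2 := by
  classical
  have hex : ∃ i, i < W ∧ ρ (off + i) = true := by
    by_contra hno
    push Not at hno
    have := bv_none (W := W) (f := fun l => ρ (off + l)) fun l hl => by
      simpa using hno l hl
    omega
  refine ⟨Nat.find hex, (Nat.find_spec hex).1, (gd_iff (Nat.find_spec hex).1).2
    ⟨(Nat.find_spec hex).2, fun l hl => ?_⟩⟩
  have h1 := Nat.find_min hex hl
  have h2 := (Nat.find_spec hex).1
  have h3 : l < W := by omega
  simpa [h3] using h1

theorem set_block {W off v : ℕ} {ρ : ℕ → Bool} (hv : v < 2 ^ W) :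
    bv W (fun l => upd ρ (geq W off v) (off + l)) = v := by
  rw [bv_eq_iff hv]
  intro l hl
  rw [upd_geq, if_pos (by omega)]
  congr 1
  omega

end Pool.Agent.H578R2.ARM
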