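import Pool.Agent.H578R2.ARM.Comp
import Pool.Agent.H578R2.Med.PP

/-!
# The rules are computed in polynomial time
-/

namespace Pool.Agent.NPC.ARM578

open Pool.Agent.H820R2.SS Pool.Agent.NPC.CL Pool.Agent.H578R2.ARM

variable {α β C : Type} [TEnc α] [TEnc β]

theorem poly_flatMap_const (L : List C) {F : C → α → List β} (h : ∀ c, Poly (F c)) :
    Poly (fun a => L.flatMap fun c => F c a) := by
  induction L with
  | nil => exact Poly.const []
  | cons c L ih => exact Poly.append (h c) ih

theorem poly_map_const (L : List C) {F : C → α → β} (h : ∀ c, Poly (F c)) :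
    Poly (fun a => L.map fun c => F c a) := by
  induction L with
  | nil => exact Poly.const []
  | cons c L ih => exact Poly.cons (h c) ih

theorem poly_gd {W off i : α → ℕ} (hW : UPoly W) (hoff : Poly off) (hi : Poly i) (b : Bool) :
    Poly (fun a => gd (W a) (off a) (i a) b) := by
  unfold gd
  have h1 : Poly (fun a => List.range (W a)) := hW.range
  refine Poly.cons (Poly.pair (Poly.add hoff hi) (Poly.const _)) (Poly.map (Poly.filter h1 ?_) ?_)
  · exact Poly.decide_lt (Poly.snd Poly.id) (hi.comp (Poly.fst Poly.id))
  · exact Poly.pair (Poly.add (hoff.comp (Poly.fst Poly.id)) (Poly.snd Poly.id)) (Poly.const _)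

theorem poly_geq {W off v : α → ℕ} (hW : UPoly W) (hoff : Poly off) (hv : Poly v) :
    Poly (fun a => geq (W a) (off a) (v a)) := by
  unfold geq
  have h1 : Poly (fun a => List.range (W a)) := hW.range
  refine Poly.map h1 ?_
  have h2 : Poly (fun p : α × ℕ => (v p.1).bits) := Poly.natBits (hv.comp (Poly.fst Poly.id))
  have h3 : Poly (fun p : α × ℕ => off p.1) := hoff.comp (Poly.fst Poly.id)
  fun_prop

section

variable {Q K A : Type} [TEnc Q] [TEnc K] [TEnc A] [DecidableEq K] (D : Tab Q K A)
variable {W i : α → ℕ}

theorem poly_pre (hW : UPoly W) (hi : Poly i) (q : Q) (r : Option A) :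
    Poly (fun a => pre D (W a) q r (i a)) := by
  unfold pre
  have h := poly_gd hW (Poly.const 0) hi true
  exact Poly.cons (Poly.pair (Poly.const _) h) (Poly.cons (Poly.pair (Poly.const _) h)
    (Poly.const []))

theorem poly_pushRules (hW : UPoly W) (hi : Poly i) (q : Q) (r : Option A) (a : A) :
    Poly (fun x => pushRules D (W x) q r a (i x)) := by
  unfold pushRules
  have hW' : UPoly (fun p : α × ℕ => W p.1) := hW.comp (Poly.fst Poly.id)
  have hi' : Poly (fun p : α × ℕ => i p.1) := hi.comp (Poly.fst Poly.id)
  have t0 := poly_gd hW (Poly.const 0) hi false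
  have t1 := poly_gd hW (Poly.const 0) hi true
  have t0' := poly_gd hW' (Poly.const 0) hi' false
  have t1' := poly_gd hW' (Poly.const 0) hi' true
  have j0 := poly_gd hW' hW'.toPoly (Poly.snd Poly.id) false
  have j1 := poly_gd hW' hW'.toPoly (Poly.snd Poly.id) true
  have hp := poly_pre D hW hi q r
  have hp' := poly_pre D hW' hi' q r
  refine Poly.append (Poly.append (Poly.append ?_ ?_) ?_) ?_
  · refine poly_map_const _ fun o => ?_
    exact Poly.pair (Poly.const _) (Poly.pair t0 (Poly.append hp
      (Poly.cons (Poly.pair (Poly.const _) t1) (Poly.const []))))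
  · refine Poly.cons (Poly.pair (Poly.const _) (Poly.pair (Poly.append t0
      (poly_geq hW hW.toPoly (Poly.const 0))) (Poly.append hp
      (Poly.cons (Poly.pair (Poly.const _) t1) (Poly.const []))))) (Poly.const [])
  · refine poly_flatMap_const _ fun o => ?_
    refine Poly.map hW.range ?_
    exact Poly.pair (Poly.const _) (Poly.pair (Poly.append t0' j0) (Poly.append hp'
      (Poly.cons (Poly.pair (Poly.const _) t1') (Poly.cons (Poly.pair (Poly.const _)
        (Poly.append t1' j1)) (Poly.const [])))))
  · refine Poly.map hW.range ?_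
    exact Poly.pair (Poly.const _) (Poly.pair (Poly.append t0' j0) (Poly.append hp'
      (Poly.cons (Poly.pair (Poly.const _) (Poly.append t1' j1)) (Poly.const []))))

theorem poly_popRules (hW : UPoly W) (hi : Poly i) (q : Q) (r : Option A) :
    Poly (fun x => popRules D (W x) q r (i x)) := by
  unfold popRules
  have hW' : UPoly (fun p : α × ℕ => W p.1) := hW.comp (Poly.fst Poly.id)
  have hi' : Poly (fun p : α × ℕ => i p.1) := hi.comp (Poly.fst Poly.id)
  have t0 := poly_gd hW (Poly.const 0) hi false
  have t1 := poly_gd hW (Poly.const 0) hi true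
  have t0' := poly_gd hW' (Poly.const 0) hi' false
  have t1' := poly_gd hW' (Poly.const 0) hi' true
  have j0 := poly_gd hW' hW'.toPoly (Poly.snd Poly.id) false
  have j1 := poly_gd hW' hW'.toPoly (Poly.snd Poly.id) true
  have hp := poly_pre D hW hi q r
  have hp' := poly_pre D hW' hi' q r
  refine Poly.append (Poly.append ?_ ?_) ?_
  · exact Poly.cons (Poly.pair (Poly.const _) (Poly.pair t0 (Poly.append hp
      (Poly.cons (Poly.pair (Poly.const _) t1) (Poly.const []))))) (Poly.const [])
  · refine Poly.map hW.range ?_
    exact Poly.pair (Poly.const _) (Poly.pair (Poly.append t0' j1) (Poly.append hp'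
      (Poly.cons (Poly.pair (Poly.const _) (Poly.append t1' j0)) (Poly.const []))))
  · refine poly_flatMap_const _ fun o => ?_
    refine poly_flatMap_const _ fun o' => ?_
    refine Poly.map hW.range ?_
    exact Poly.pair (Poly.const _) (Poly.pair (Poly.append t0' j1) (Poly.append hp'
      (Poly.cons (Poly.pair (Poly.const _) t1') (Poly.cons (Poly.pair (Poly.const _)
        (Poly.append t1' j0)) (Poly.const [])))))

theorem poly_stepRules (hW : UPoly W) (hi : Poly i) (q : Q) (r : Option A) :
    Poly (fun x => stepRules D (W x) q r (i x)) := by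
  unfold stepRules
  have t0 := poly_gd hW (Poly.const 0) hi false
  have t1 := poly_gd hW (Poly.const 0) hi true
  have hp := poly_pre D hW hi q r
  refine Poly.append (Poly.append (Poly.append ?_ ?_) ?_) ?_
  · exact Poly.cons (Poly.pair (Poly.const _) (Poly.pair t0 hp)) (Poly.const [])
  · unfold keepRules
    refine poly_flatMap_const _ fun k => ?_
    refine poly_flatMap_const _ fun o => ?_
    by_cases h : k ≠ D.M.κ q ∨ pkind D q r = 0
    · simp only [if_pos h]
      exact Poly.cons (Poly.pair (Poly.const _) (Poly.pair t0 (Poly.append hp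
        (Poly.cons (Poly.pair (Poly.const _) t1) (Poly.const []))))) (Poly.const [])
    · simp only [if_neg h]
      exact Poly.const []
  · cases pushed D q r with
    | none => exact Poly.const []
    | some a => exact poly_pushRules D hW hi q r a
  · by_cases h : pkind D q r = 1
    · simp only [if_pos h]
      exact poly_popRules D hW hi q r
    · simp only [if_neg h]
      exact Poly.const []

theorem poly_rdRules (hW : UPoly W) : Poly (fun x => rdRules D (W x)) := by
  unfold rdRules
  have hW' : UPoly (fun p : α × ℕ => W p.1) := hW.comp (Poly.fst Poly.id)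
  have j0 := poly_gd hW' hW'.toPoly (Poly.snd Poly.id) false
  have j1 := poly_gd hW' hW'.toPoly (Poly.snd Poly.id) true
  refine poly_flatMap_const _ fun k => ?_
  refine Poly.append (Poly.append ?_ ?_) ?_
  · exact Poly.cons (Poly.pair (Poly.const _) (Poly.pair (Poly.const _)
      (Poly.cons (Poly.pair (Poly.const _) (poly_geq hW hW.toPoly (Poly.const 0)))
        (Poly.const [])))) (Poly.const [])
  · refine poly_flatMap_const _ fun r => ?_
    refine poly_flatMap_const _ fun b => ?_
    refine Poly.map hW.range ?_
    exact Poly.pair (Poly.const _) (Poly.pair (Poly.const _) (Poly.cons (Poly.pair (Poly.const _)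
      (Poly.cons (Poly.pair (Poly.add hW'.toPoly (Poly.snd Poly.id)) (Poly.const _))
        (Poly.const []))) (Poly.const [])))
  · refine poly_flatMap_const _ fun r => ?_
    refine Poly.map hW.range ?_
    exact Poly.pair (Poly.const _) (Poly.pair j1 (Poly.cons (Poly.const _) (Poly.cons
      (Poly.pair (Poly.const _) j0) (Poly.const []))))

theorem poly_initRules (hW : UPoly W) {y : α → List Bool} (hy : Poly y) :
    Poly (fun x => initRules D (W x) (y x)) := by
  unfold initRules
  have hW' : UPoly (fun p : α × ℕ => W p.1) := hW.comp (Poly.fst Poly.id)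
  have hW'' : UPoly (fun p : α × (Bool × ℕ) => W p.1) := hW.comp (Poly.fst Poly.id)
  have j0 := poly_gd hW' hW'.toPoly (Poly.snd Poly.id) false
  have j1 := poly_gd hW' hW'.toPoly (Poly.snd Poly.id) true
  have t0 := poly_geq hW (Poly.const 0) (Poly.const 0)
  refine Poly.append (Poly.append (Poly.append (Poly.append ?_ ?_) ?_) ?_) ?_
  · exact Poly.cons (Poly.pair (Poly.const _) (Poly.pair t0 (Poly.const []))) (Poly.const [])
  · refine poly_map_const _ fun k => ?_
    exact Poly.pair (Poly.const _) (Poly.pair t0 (Poly.const []))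
  · refine Poly.map (l := fun x => (y x).reverse.zipIdx) (F := fun x (p : Bool × ℕ) =>
      ((cce D.k₀ (some (D.sym p.1)) : Ctl Q K A), geq (W x) 0 0 ++ geq (W x) (W x) p.2,
        ([] : List (Ctl Q K A × List (ℕ × Bool))))) (Poly.zipIdx (Poly.reverse hy)) ?_
    refine Poly.pair ?_ (Poly.pair (Poly.append (poly_geq hW'' (Poly.const 0) (Poly.const 0))
      (poly_geq hW'' hW''.toPoly (Poly.snd (Poly.snd Poly.id)))) (Poly.const []))
    exact (polyOfFintype (fun b : Bool => (cce D.k₀ (some (D.sym b)) : Ctl Q K A))).comp
      (Poly.fst (Poly.snd Poly.id))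
  · exact Poly.cons (Poly.pair (Poly.const _) (Poly.pair (Poly.append t0
      (poly_geq hW hW.toPoly (Poly.length hy))) (Poly.const []))) (Poly.const [])
  · refine Poly.map hW.range ?_
    exact Poly.pair (Poly.const _) (Poly.pair (Poly.append (poly_geq hW' (Poly.const 0)
      (Poly.const 0)) j0) (Poly.cons (Poly.pair (Poly.const _) j1) (Poly.const [])))

theorem poly_finRules (hW : UPoly W) {N : α → ℕ} (hN : Poly N) (b : Bool) :
    Poly (fun x => finRules D (W x) (N x) b) := by
  unfold finRules
  have tN := poly_geq hW (Poly.const 0) hN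
  have p0 := Poly.append tN (poly_geq hW hW.toPoly (Poly.const 0))
  have p1 := Poly.append tN (poly_geq hW hW.toPoly (Poly.const 1))
  cases b with
  | true =>
    simp only [if_true]
    refine poly_flatMap_const _ fun q => ?_
    refine poly_map_const _ fun o => ?_
    exact Poly.pair (Poly.const _) (Poly.pair (Poly.const _) (Poly.cons
      (Poly.pair (Poly.const _) tN) (Poly.cons (Poly.pair (Poly.const _) p0)
        (Poly.cons (Poly.pair (Poly.const _) p1) (Poly.const [])))))
  | false =>
    simp only [Bool.false_eq_true, if_false]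
    refine Poly.append (Poly.append ?_ ?_) ?_
    · refine poly_map_const _ fun q => ?_
      exact Poly.pair (Poly.const _) (Poly.pair (Poly.const _) (Poly.cons
        (Poly.pair (Poly.const _) tN) (Poly.const [])))
    · refine poly_map_const _ fun q => ?_
      exact Poly.pair (Poly.const _) (Poly.pair (Poly.const _) (Poly.cons
        (Poly.pair (Poly.const _) p0) (Poly.const [])))
    · refine poly_map_const _ fun q => ?_
      exact Poly.pair (Poly.const _) (Poly.pair (Poly.const _) (Poly.cons
        (Poly.pair (Poly.const _) p1) (Poly.const [])))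

theorem poly_rules (hW : UPoly W) {y : α → List Bool} (hy : Poly y) {N : α → ℕ} (hN : Poly N)
    (b : Bool) : Poly (fun x => rules D (W x) (y x) (N x) b) := by
  unfold rules
  have hW' : UPoly (fun p : α × ℕ => W p.1) := hW.comp (Poly.fst Poly.id)
  refine Poly.append (Poly.append (Poly.append ?_ (poly_rdRules D hW)) (poly_initRules D hW hy))
    (poly_finRules D hW hN b)
  refine Poly.flatMap hW.range ?_
  refine poly_flatMap_const _ fun q => ?_
  refine poly_flatMap_const _ fun r => ?_
  exact poly_stepRules D hW' (Poly.snd Poly.id) q r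

theorem poly_encR {R : α → List (TRule (Ctl Q K A))} (hR : Poly R) {code : Ctl Q K A → ℕ}
    (hcode : Poly code) : Poly (fun x => (R x).map (encR code)) := by
  refine Poly.map (F := fun _ r => encR code r) hR ?_
  unfold encR
  refine Poly.pair (hcode.comp (Poly.fst (Poly.snd Poly.id))) (Poly.pair
    (Poly.fst (Poly.snd (Poly.snd Poly.id))) ?_)
  refine Poly.map (l := fun p : α × TRule (Ctl Q K A) => p.2.2.2)
    (F := fun (_ : α × TRule (Ctl Q K A)) (s : Ctl Q K A × List (ℕ × Bool)) => (code s.1, s.2))
    (Poly.snd (Poly.snd (Poly.snd Poly.id))) ?_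
  exact Poly.pair (hcode.comp (Poly.fst (Poly.snd Poly.id))) (Poly.snd (Poly.snd Poly.id))

end

end Pool.Agent.NPC.ARM578
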