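import Pool.Agent.H578R2.ARM.Num
import Pool.Agent.NPC.CookLevin3

/-!
# The rules of the alternating register machine that computes the run of a stack machine
-/

namespace Pool.Agent.H578R2.ARM

open Pool.Agent.H820R2.SS Pool.Agent.NPC.CL

/-! ### Typed rules -/

/-- Rules with controls in a type `C`. -/
abbrev TRule (C : Type) : Type := C × List (ℕ × Bool) × List (C × List (ℕ × Bool))

/-- Derivability for typed rules. -/
inductive TDer {C : Type} (P : List (TRule C)) : C → (ℕ → Bool) → Prop
  | mk (r : TRule C) (ρ : ℕ → Bool) (hr : r ∈ P) (hg : ∀ g ∈ r.2.1, ρ g.1 = g.2)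
      (hp : ∀ s ∈ r.2.2, TDer P s.1 (upd ρ s.2)) : TDer P r.1 ρ

theorem TDer.of {C : Type} {P : List (TRule C)} {ρ : ℕ → Bool} {c : C} {g : List (ℕ × Bool)}
    {p : List (C × List (ℕ × Bool))} (hr : (c, g, p) ∈ P) (hg : ∀ x ∈ g, ρ x.1 = x.2)
    (hp : ∀ s ∈ p, TDer P s.1 (upd ρ s.2)) : TDer P c ρ :=
  TDer.mk (c, g, p) ρ hr hg hp

/-- Coding of a rule. -/
def encR {C : Type} (code : C → ℕ) (r : TRule C) : ARule :=
  (code r.1, r.2.1, r.2.2.map fun s => (code s.1, s.2))

theorem tder_of_der {C : Type} {code : C → ℕ} (hc : Function.Injective code) {P : List (TRule C)}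
    {n : ℕ} {ρ : ℕ → Bool} (h : Der (P.map (encR code)) n ρ) : ∀ c, code c = n → TDer P c ρ := by
  induction h with
  | mk r ρ hr hg hp ih =>
    intro c hcr
    obtain ⟨r', hr', rfl⟩ := List.mem_map.1 hr
    have : c = r'.1 := hc hcr
    subst this
    refine TDer.mk r' ρ hr' hg fun s hs => ?_
    exact ih (code s.1, s.2) (List.mem_map.2 ⟨s, hs, rfl⟩) s.1 rfl

theorem der_iff {C : Type} {code : C → ℕ} (hc : Function.Injective code) {P : List (TRule C)}
    {c : C} {ρ : ℕ → Bool} : Der (P.map (encR code)) (code c) ρ ↔ TDer P c ρ := by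
  constructor
  · intro h
    exact tder_of_der hc h c rfl
  · intro h
    induction h with
    | mk r ρ hr hg hp ih =>
      refine Der.mk (encR code r) ρ (List.mem_map.2 ⟨r, hr, rfl⟩) hg ?_
      intro s hs
      obtain ⟨s', hs', rfl⟩ := List.mem_map.1 hs
      exact ih s' hs'

theorem upd_append (ρ : ℕ → Bool) (a b : List (ℕ × Bool)) : upd ρ (a ++ b) = upd (upd ρ b) a := by
  funext i
  unfold upd
  rw [List.lookup_append]
  cases a.lookup i <;> simp

theorem upd_nil (ρ : ℕ → Bool) : upd ρ [] = ρ := rfl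

/-! ### The two blocks -/

/-- the time -/
def tv (W : ℕ) (ρ : ℕ → Bool) : ℕ := bv W fun l => ρ (0 + l)

/-- the position -/
def jv (W : ℕ) (ρ : ℕ → Bool) : ℕ := bv W fun l => ρ (W + l)

theorem tv_lt (W : ℕ) (ρ : ℕ → Bool) : tv W ρ < 2 ^ W := bv_lt _ _
theorem jv_lt (W : ℕ) (ρ : ℕ → Bool) : jv W ρ < 2 ^ W := bv_lt _ _

theorem tv_gdJ {W i : ℕ} {b : Bool} {ρ : ℕ → Bool} (hi : i < W) :
    tv W (upd ρ (gd W W i b)) = tv W ρ :=
  bv_congr fun l hl => by rw [upd_gd hi, if_neg (by omega), if_neg (by omega)]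

theorem jv_gdT {W i : ℕ} {b : Bool} {ρ : ℕ → Bool} (hi : i < W) :
    jv W (upd ρ (gd W 0 i b)) = jv W ρ :=
  bv_congr fun l hl => by rw [upd_gd hi, if_neg (by omega), if_neg (by omega)]

theorem tv_geqJ {W v : ℕ} {ρ : ℕ → Bool} : tv W (upd ρ (geq W W v)) = tv W ρ :=
  bv_congr fun l hl => by rw [upd_geq, if_neg (by omega)]

theorem jv_geqT {W v : ℕ} {ρ : ℕ → Bool} : jv W (upd ρ (geq W 0 v)) = jv W ρ :=
  bv_congr fun l hl => by rw [upd_geq, if_neg (by omega)]

theorem tv_geqT {W v : ℕ} {ρ : ℕ → Bool} (hv : v < 2 ^ W) : tv W (upd ρ (geq W 0 v)) = v :=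
  set_block hv

theorem jv_geqJ {W v : ℕ} {ρ : ℕ → Bool} (hv : v < 2 ^ W) : jv W (upd ρ (geq W W v)) = v :=
  set_block hv

/-! ### The rules -/

/-- Controls: state, symbol read on a stack, content of a cell, start. -/
abbrev Ctl (Q K A : Type) : Type := Q ⊕ (K × Option A) ⊕ (K × Option A) ⊕ Unit

variable {Q K A : Type}

/-- the state is `q` -/
def cst (q : Q) : Ctl Q K A := Sum.inl q
/-- stack `k` reads `r` -/
def crd (k : K) (r : Option A) : Ctl Q K A := Sum.inr (Sum.inl (k, r))
/-- the cell of stack `k` contains `o` -/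
def cce (k : K) (o : Option A) : Ctl Q K A := Sum.inr (Sum.inr (Sum.inl (k, o)))
/-- start -/
def cgo : Ctl Q K A := Sum.inr (Sum.inr (Sum.inr ()))

variable [DecidableEq K] (D : Tab Q K A) (W : ℕ)

/-- the premises saying that at time `t - 1` the state was `q` and the symbol read `r` -/
def pre (q : Q) (r : Option A) (i : ℕ) : List (Ctl Q K A × List (ℕ × Bool)) :=
  [(cst q, gd W 0 i true), (crd (D.M.κ q) r, gd W 0 i true)]

/-- rules for a push of `a` -/
def pushRules (q : Q) (r : Option A) (a : A) (i : ℕ) : List (TRule (Ctl Q K A)) :=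
  ((D.os.filter fun o => o.isSome).map fun o =>
    (cce (D.M.κ q) o, gd W 0 i false, pre D W q r i ++ [(cce (D.M.κ q) o, gd W 0 i true)])) ++
  [(cce (D.M.κ q) (some a), gd W 0 i false ++ geq W W 0,
    pre D W q r i ++ [(cce (D.M.κ q) none, gd W 0 i true)])] ++
  ((D.os.filter fun o => o.isSome).flatMap fun o => (List.range W).map fun j =>
    (cce (D.M.κ q) (some a), gd W 0 i false ++ gd W W j false,
      pre D W q r i ++ [(cce (D.M.κ q) none, gd W 0 i true),
        (cce (D.M.κ q) o, gd W 0 i true ++ gd W W j true)])) ++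
  ((List.range W).map fun j => (cce (D.M.κ q) none, gd W 0 i false ++ gd W W j false,
    pre D W q r i ++ [(cce (D.M.κ q) none, gd W 0 i true ++ gd W W j true)]))

/-- rules for a pop -/
def popRules (q : Q) (r : Option A) (i : ℕ) : List (TRule (Ctl Q K A)) :=
  [(cce (D.M.κ q) none, gd W 0 i false, pre D W q r i ++ [(cce (D.M.κ q) none, gd W 0 i true)])] ++
  ((List.range W).map fun j => (cce (D.M.κ q) none, gd W 0 i false ++ gd W W j true,
    pre D W q r i ++ [(cce (D.M.κ q) none, gd W 0 i true ++ gd W W j false)])) ++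
  ((D.os.filter fun o => o.isSome).flatMap fun o => (D.os.filter fun o => o.isSome).flatMap
    fun o' => (List.range W).map fun j => (cce (D.M.κ q) o, gd W 0 i false ++ gd W W j true,
      pre D W q r i ++ [(cce (D.M.κ q) o, gd W 0 i true),
        (cce (D.M.κ q) o', gd W 0 i true ++ gd W W j false)]))

/-- rules for unchanged cells -/
def keepRules (q : Q) (r : Option A) (i : ℕ) : List (TRule (Ctl Q K A)) :=
  D.ks.flatMap fun k => D.os.flatMap fun o =>
    if k ≠ D.M.κ q ∨ pkind D q r = 0 then
      [(cce k o, gd W 0 i false, pre D W q r i ++ [(cce k o, gd W 0 i true)])] else []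

/-- rules for a step -/
def stepRules (q : Q) (r : Option A) (i : ℕ) : List (TRule (Ctl Q K A)) :=
  [(cst (D.M.δ q r).1, gd W 0 i false, pre D W q r i)] ++
  keepRules D W q r i ++
  (match pushed D q r with
    | none => []
    | some a => pushRules D W q r a i) ++
  (if pkind D q r = 1 then popRules D W q r i else [])

/-- rules for the symbol read -/
def rdRules : List (TRule (Ctl Q K A)) :=
  D.ks.flatMap fun k =>
    [(crd k none, [], [(cce k none, geq W W 0)])] ++
    (D.os.flatMap fun r => [true, false].flatMap fun b => (List.range W).map fun l =>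
      (crd k r, [], [(crd k r, [(W + l, b)])])) ++
    ((D.os.filter fun r => r.isSome).flatMap fun r => (List.range W).map fun j =>
      (crd k r, gd W W j true, [(cce k r, []), (cce k none, gd W W j false)]))

/-- rules for time `0` -/
def initRules (y : List Bool) : List (TRule (Ctl Q K A)) :=
  [(cst D.q₀, geq W 0 0, [])] ++
  ((D.ks.filter fun k => decide (k ≠ D.k₀)).map fun k => (cce k none, geq W 0 0, [])) ++
  (y.reverse.zipIdx.map fun p => (cce D.k₀ (some (D.sym p.1)), geq W 0 0 ++ geq W W p.2, [])) ++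
  [(cce D.k₀ none, geq W 0 0 ++ geq W W y.length, [])] ++
  ((List.range W).map fun j => (cce D.k₀ none, geq W 0 0 ++ gd W W j false,
    [(cce D.k₀ none, gd W W j true)]))

/-- final rules at time `N`: acceptance or rejection -/
def finRules (N : ℕ) (b : Bool) : List (TRule (Ctl Q K A)) :=
  if b then
    (D.qs.filter fun q => D.acc q).flatMap fun q =>
      (D.os.filter fun o => o.isSome && D.good o).map fun o =>
        (cgo, [], [(cst q, geq W 0 N), (cce D.k₁ o, geq W 0 N ++ geq W W 0),
          (cce D.k₁ none, geq W 0 N ++ geq W W 1)])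
  else
    ((D.qs.filter fun q => !(D.acc q)).map fun q => (cgo, [], [(cst q, geq W 0 N)])) ++
    ((D.os.filter fun o => !(o.isSome && D.good o)).map fun o =>
      (cgo, [], [(cce D.k₁ o, geq W 0 N ++ geq W W 0)])) ++
    ((D.os.filter fun o => o.isSome).map fun o =>
      (cgo, [], [(cce D.k₁ o, geq W 0 N ++ geq W W 1)]))

/-- all the rules -/
def rules (y : List Bool) (N : ℕ) (b : Bool) : List (TRule (Ctl Q K A)) :=
  ((List.range W).flatMap fun i => D.qs.flatMap fun q => D.os.flatMap fun r =>
    stepRules D W q r i) ++ rdRules D W ++ initRules D W y ++ finRules D W N b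

/-! ### Visible cells -/

/-- The content of a cell below the pointer, and `none` above it. -/
def vis (c : Cf Q K A) (k : K) (j : ℕ) : Option A := if j < c.h k then c.m k j else none

/-- All the cells below the pointers are in use. -/
def Full (c : Cf Q K A) : Prop := ∀ k j, j < c.h k → c.m k j ≠ none

variable {D W}

omit [DecidableEq K] in
theorem vis_eq_none {c : Cf Q K A} (hc : Full c) {k : K} {j : ℕ} : vis c k j = none ↔ c.h k ≤ j := by
  unfold vis
  split_ifs with h
  · exact ⟨fun h' => absurd h' (hc k j h), fun h' => by omega⟩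
  · exact ⟨fun _ => by omega, fun _ => rfl⟩

omit [DecidableEq K] in
theorem vis_ne_none {c : Cf Q K A} (hc : Full c) {k : K} {j : ℕ} :
    vis c k j ≠ none ↔ j < c.h k := by
  rw [Ne, vis_eq_none hc]
  omega

omit [DecidableEq K] in
theorem read_none {c : Cf Q K A} (hc : Full c) {k : K} : c.read k = none ↔ c.h k = 0 := by
  unfold Cf.read
  cases h : c.h k with
  | zero => simp
  | succ n =>
    have := hc k n (by omega)
    simpa using this

omit [DecidableEq K] in
theorem read_succ {c : Cf Q K A} {k : K} {n : ℕ} (h : c.h k = n + 1) :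
    c.read k = vis c k n := by
  unfold Cf.read vis
  rw [h]
  simp

theorem vis_keep {c : Cf Q K A} {k : K}
    (h : k ≠ D.M.κ c.q ∨ pkind D c.q (c.read (D.M.κ c.q)) = 0) (j : ℕ) :
    vis (D.M.step c) k j = vis c k j := by
  have key : (D.M.step c).h k = c.h k ∧ (D.M.step c).m k = c.m k := by
    by_cases hk : k = D.M.κ c.q
    · subst hk
      have h := h.resolve_left (fun h => h rfl)
      unfold pkind at h
      unfold NM.step
      simp only [Function.update_self]
      cases hop : (D.M.δ c.q (c.read (D.M.κ c.q))).2 with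
      | keep => exact ⟨rfl, rfl⟩
      | pop =>
        rw [hop] at h
        cases hr : c.read (D.M.κ c.q) with
        | none => exact ⟨rfl, rfl⟩
        | some a => rw [hr] at h; simp at h
      | push a => rw [hop] at h; simp at h
    · unfold NM.step
      simp only [Function.update_of_ne hk, and_self]
  unfold vis
  rw [key.1, key.2]

theorem vis_push {c : Cf Q K A} {a : A}
    (h : pushed D c.q (c.read (D.M.κ c.q)) = some a) (j : ℕ) :
    vis (D.M.step c) (D.M.κ c.q) j = if j < c.h (D.M.κ c.q) then vis c (D.M.κ c.q) j else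
      if j = c.h (D.M.κ c.q) then some a else none := by
  have key : (D.M.step c).h (D.M.κ c.q) = c.h (D.M.κ c.q) + 1 ∧ (D.M.step c).m (D.M.κ c.q) =
      Function.update (c.m (D.M.κ c.q)) (c.h (D.M.κ c.q)) (some a) := by
    unfold pushed at h
    unfold NM.step
    simp only [Function.update_self]
    cases hop : (D.M.δ c.q (c.read (D.M.κ c.q))).2 with
    | keep => rw [hop] at h; simp at h
    | pop => rw [hop] at h; simp at h
    | push a' =>
      rw [hop] at h
      simp only [Option.some.injEq] at h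
      subst h
      exact ⟨rfl, rfl⟩
  unfold vis
  rw [key.1, key.2]
  by_cases h1 : j < c.h (D.M.κ c.q)
  · rw [if_pos (by omega), if_pos h1, if_pos h1, Function.update_of_ne (by omega)]
  · rw [if_neg h1]
    by_cases h2 : j = c.h (D.M.κ c.q)
    · rw [if_pos (by omega), if_pos h2, h2, Function.update_self]
    · rw [if_neg (by omega), if_neg h2]

theorem vis_pop {c : Cf Q K A} (h : pkind D c.q (c.read (D.M.κ c.q)) = 1) (j : ℕ) :
    vis (D.M.step c) (D.M.κ c.q) j = if j + 1 < c.h (D.M.κ c.q) then vis c (D.M.κ c.q) j else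
      none := by
  have key : (D.M.step c).h (D.M.κ c.q) = c.h (D.M.κ c.q) - 1 ∧ (D.M.step c).m (D.M.κ c.q) =
      c.m (D.M.κ c.q) := by
    unfold pkind at h
    unfold NM.step
    simp only [Function.update_self]
    cases hop : (D.M.δ c.q (c.read (D.M.κ c.q))).2 with
    | keep => rw [hop] at h; simp at h
    | push a => rw [hop] at h; simp at h
    | pop =>
      rw [hop] at h
      cases hr : c.read (D.M.κ c.q) with
      | none => rw [hr] at h; simp at h
      | some a => exact ⟨rfl, rfl⟩
  unfold vis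
  rw [key.1, key.2]
  by_cases h1 : j + 1 < c.h (D.M.κ c.q)
  · rw [if_pos (by omega), if_pos h1, if_pos (by omega)]
  · rw [if_neg (by omega), if_neg h1]

omit [DecidableEq K] in
theorem kind_cases (q : Q) (r : Option A) :
    pkind D q r = 0 ∨ pkind D q r = 1 ∨ ∃ a, pushed D q r = some a := by
  unfold pkind pushed
  cases (D.M.δ q r).2 with
  | keep => left; rfl
  | pop => cases r <;> simp
  | push a => right; right; exact ⟨a, rfl⟩

omit [DecidableEq K] in
theorem accepts_vis {c : Cf Q K A} (hc : Full c) : Accepts D c ↔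
    D.acc c.q = true ∧ (vis c D.k₁ 0 ≠ none ∧ D.good (vis c D.k₁ 0) = true) ∧
      vis c D.k₁ 1 = none := by
  unfold Accepts
  constructor
  · rintro ⟨h1, n, h2, h3, h4⟩
    have hn : n = 0 := by
      by_contra hn
      obtain ⟨n', rfl⟩ := Nat.exists_eq_succ_of_ne_zero hn
      exact hc D.k₁ n' (by omega) (h4 n' rfl)
    subst hn
    have h5 : vis c D.k₁ 0 = c.m D.k₁ 0 := by
      unfold vis
      rw [if_pos (by omega)]
    refine ⟨h1, ⟨(vis_ne_none hc).2 (by omega), by rw [h5]; exact h3⟩,
      (vis_eq_none hc).2 (by omega)⟩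
  · rintro ⟨h1, ⟨h2, h3⟩, h4⟩
    rw [vis_ne_none hc] at h2
    rw [vis_eq_none hc] at h4
    refine ⟨h1, 0, by omega, ?_, by omega⟩
    unfold vis at h3
    rwa [if_pos h2] at h3

end Pool.Agent.H578R2.ARM
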